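import Pool.Agent.MP_c34dea_an.H6.Levels
import Pool.Agent.MP_c34dea_an.H66.Lab

set_option autoImplicit false

open scoped symmDiff Pointwise

namespace Pool.Agent.MP_c34dea_an.H6

open H66

variable {S : Type} {G : SimpleGraph S}

/-- an invariant family of convex sets of hyperplanes with a faithful convex relation -/
structure Fam (𝒮 : Set (Set (Hyp G))) (Sim : Hyp G → Hyp G → Prop) : Prop where
  inv : ∀ g : W G, ∀ A ∈ 𝒮, g • A ∈ 𝒮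
  conv : ∀ A ∈ 𝒮, ∀ t ∈ A, ∀ u ∈ A, ∃ a ∈ car t, ∃ b ∈ car u, ∀ k ∈ sep a b, k ∈ A
  sim_inv : ∀ (g : W G) (t u : Hyp G), Sim t u → Sim (g • t) (g • u)
  sim_symm : ∀ t u, Sim t u → Sim u t
  sim_conv : ∀ (p : W G) (a b c : Hyp G), Lt p a b → Lt p b c → Sim a c → Sim a b
  faith : ∀ R : ℕ, ∃ N : Subgroup (W G), N.Normal ∧ N.FiniteIndex ∧
    ∀ (t u : Hyp G) (a b n : W G), Br t u a b → d a b ≤ R → n ∈ N → ∀ A ∈ 𝒮, t ∈ A → n • u ∈ A →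
      Sim t u

/-- nested, strongly separated and not similar -/
def Nx (Sim : Hyp G → Hyp G → Prop) (p : W G) (f f' : Hyp G) : Prop :=
  Lt p f f' ∧ TB0 f f' ∧ ¬ Sim f f'

/-- four pairwise non similar strongly separated hyperplanes between `a` and `b` -/
def Sp (Sim : Hyp G → Hyp G → Prop) (a b : W G) : Prop :=
  ∃ f1 f2 f3 f4, f4 ∈ sep a b ∧ Nx Sim a f1 f2 ∧ Nx Sim a f2 f3 ∧ Nx Sim a f3 f4

/-- the output of the level construction -/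
structure Lev {S' : Type} {G' : SimpleGraph S'} (𝒮 : Set (Set (Hyp G)))
    (Sim : Hyp G → Hyp G → Prop) (R : ℕ) (L : Lab G G') (N : Subgroup (W G)) : Prop where
  normal : N.Normal
  fi : N.FiniteIndex
  inv : ∀ n ∈ N, ∀ h : Hyp G, L.lab (n • h) = L.lab h
  typ : ∀ t u : Hyp G, L.lab t = L.lab u → t.1 = u.1
  inj : ∀ (t u : Hyp G) (x y : W G), x ∈ car t → y ∈ car u → d x y ≤ R → L.lab t = L.lab u → t = u
  adj : ∀ t u : Hyp G, Cross t u → G'.Adj (L.lab t) (L.lab u)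
  clq : ∀ A ∈ 𝒮, ∀ t ∈ A, ∀ u ∈ A, L.lab u ∈ st G' (L.lab t)
  nt : ∀ (t u : Hyp G) (a b : W G), Br t u a b → d a b ≤ R → Sp Sim a b →
    ∀ e, L.lab t ∈ st G' e → L.lab u ∉ st G' e
  uq : ∀ (t u t' u' : Hyp G) (a b a' b' : W G), Br t u a b → Br t' u' a' b' → d a b ≤ R →
    d a' b' ≤ R → L.lab t = L.lab t' → L.lab u = L.lab u' → a⁻¹ * b = a'⁻¹ * b'

variable {𝒮 : Set (Set (Hyp G))} {Sim : Hyp G → Hyp G → Prop}

theorem Nx.trans (F : Fam 𝒮 Sim) {p : W G} {a b c : Hyp G} (h : Nx Sim p a b)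
    (h' : Nx Sim p b c) : Nx Sim p a c :=
  ⟨h.1.trans h'.1, h.2.1.of_left h.1 h'.1, fun x => h.2.2 (F.sim_conv p a b c h.1 h'.1 x)⟩

theorem Nx.rev (F : Fam 𝒮 Sim) {p q : W G} {a b : Hyp G} (h : Nx Sim p a b) (hb : b ∈ sep p q) :
    Nx Sim q b a :=
  ⟨h.1.rev hb, h.2.1.symm, fun x => h.2.2 (F.sim_symm _ _ x)⟩

theorem Nx.base {p p' : W G} {a b : Hyp G} (h : Nx Sim p a b) (h1 : a ∉ sep p p') :
    Nx Sim p' a b :=
  ⟨h.1.base h1 fun x => h1 (h.1.mem x), h.2⟩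

theorem Nx.smul (F : Fam 𝒮 Sim) {p : W G} {a b : Hyp G} (h : Nx Sim p a b) (g : W G) :
    Nx Sim (g * p) (g • a) (g • b) :=
  ⟨(lt_smul g).2 h.1, (tb0_smul g).2 h.2.1, fun x => h.2.2 (by simpa using F.sim_inv g⁻¹ _ _ x)⟩

theorem Sp.symm (F : Fam 𝒮 Sim) {a b : W G} (h : Sp Sim a b) : Sp Sim b a := by
  obtain ⟨f1, f2, f3, f4, m4, h1, h2, h3⟩ := h
  have m3 := h3.1.mem m4
  have m2 := h2.1.mem m3
  exact ⟨f4, f3, f2, f1, mem_sep_comm.1 (h1.1.mem m2), h3.rev F m4, h2.rev F m3, h1.rev F m2⟩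

theorem Sp.smul (F : Fam 𝒮 Sim) {a b : W G} (h : Sp Sim a b) (g : W G) :
    Sp Sim (g * a) (g * b) := by
  obtain ⟨f1, f2, f3, f4, m4, h1, h2, h3⟩ := h
  exact ⟨_, _, _, _, (smul_mem_sep g a b).2 m4, h1.smul F g, h2.smul F g, h3.smul F g⟩

theorem Sp.of_eq (F : Fam 𝒮 Sim) {a b a' b' : W G} (h : Sp Sim a b) (e : a⁻¹ * b = a'⁻¹ * b') :
    Sp Sim a' b' := by
  have := h.smul F (a' * a⁻¹)
  rwa [inv_mul_cancel_right, mul_assoc, e, mul_inv_cancel_left] at this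

/-- connected at the new level -/
def Con (𝒮 : Set (Set (Hyp G))) (t u : Hyp G) : Prop := Stc t u ∨ ∃ A ∈ 𝒮, t ∈ A ∧ u ∈ A

theorem Con.symm {t u : Hyp G} (h : Con 𝒮 t u) : Con 𝒮 u t := by
  rcases h with h | ⟨A, h1, h2, h3⟩
  · exact Or.inl h.symm
  · exact Or.inr ⟨A, h1, h3, h2⟩

theorem Con.smul (F : Fam 𝒮 Sim) {t u : Hyp G} (h : Con 𝒮 t u) (g : W G) :
    Con 𝒮 (g • t) (g • u) := by
  rcases h with h | ⟨A, h1, h2, h3⟩
  · exact Or.inl ((stc_smul g).2 h)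
  · exact Or.inr ⟨g • A, F.inv g A h1, Set.smul_mem_smul_set h2, Set.smul_mem_smul_set h3⟩

theorem Con.path (F : Fam 𝒮 Sim) {t u : Hyp G} (h : Con 𝒮 t u) :
    ∃ x ∈ car t, ∃ y ∈ car u, ∃ A : Set (Hyp G), (A ∈ 𝒮 ∨ A = ∅) ∧ ∀ k ∈ sep x y, k ∈ A := by
  rcases h with h | ⟨A, h1, h2, h3⟩
  · obtain ⟨y, a, b⟩ := h.exists_pt
    exact ⟨y, a, y, b, ∅, Or.inr rfl, by simp⟩
  · obtain ⟨a, ha, b, hb, h⟩ := F.conv A h1 t h2 u h3
    exact ⟨a, ha, b, hb, A, Or.inl h1, h⟩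

/-- the defining graph of the new level -/
def GP (𝒮 : Set (Set (Hyp G))) (N : Subgroup (W G)) : SimpleGraph (Quotient (clS N)) where
  Adj c e := c ≠ e ∧ ∃ t u, Quotient.mk (clS N) t = c ∧ Quotient.mk (clS N) u = e ∧ Con 𝒮 t u
  symm := ⟨fun _ _ ⟨h, t, u, h1, h2, h3⟩ => ⟨h.symm, u, t, h2, h1, h3.symm⟩⟩
  loopless := ⟨fun _ h => h.1 rfl⟩

theorem mem_st_GP {N : Subgroup (W G)} {t u : Hyp G} (h : Con 𝒮 t u) :
    Quotient.mk (clS N) u ∈ st (GP 𝒮 N) (Quotient.mk (clS N) t) := by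
  by_cases e : Quotient.mk (clS N) t = Quotient.mk (clS N) u
  · exact Or.inl e.symm
  · exact Or.inr ⟨e, t, u, rfl, rfl, h⟩

/-- the labelling by classes -/
def labP (𝒮 : Set (Set (Hyp G))) (N : Subgroup (W G)) : Lab G (GP 𝒮 N) where
  lab := Quotient.mk (clS N)
  sq := fun _ _ c => mem_st_GP (Or.inl (Or.inr c))

theorem con_of_mem_st (F : Fam 𝒮 Sim) {N : Subgroup (W G)} {t : Hyp G} {e : Quotient (clS N)}
    (h : Quotient.mk (clS N) t ∈ st (GP 𝒮 N) e) :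
    ∃ k, Quotient.mk (clS N) k = e ∧ Con 𝒮 k t := by
  rcases h with h | ⟨-, k, t', h1, h2, h3⟩
  · exact ⟨t, h, Or.inl (Stc.refl t)⟩
  · obtain ⟨v, hv, rfl⟩ := clS_eq.1 h2
    exact ⟨v • k, by rw [← h1]; exact (clS_eq.2 ⟨v, hv, rfl⟩).symm, h3.smul F v⟩

theorem exists_lev [Finite S] (F : Fam 𝒮 Sim) (R : ℕ) (M : Subgroup (W G)) [M.Normal]
    [M.FiniteIndex] :
    ∃ (S' : Type) (_ : Finite S') (G' : SimpleGraph S') (L : Lab G G') (N : Subgroup (W G)),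
      N ≤ M ∧ Lev 𝒮 Sim R L N := by
  obtain ⟨N0, i1, i2, h0⟩ := exists_F0 G R
  obtain ⟨N1', j1, j2, h1'⟩ := F.faith R
  set N1 := N1' ⊓ M with hN1
  have h1 := fun t u a b n hb hd (hn : n ∈ N1) => h1' t u a b n hb hd hn.1
  set N2 := PN N0 ⊓ N1 with hN2
  have h2 : F0 N2 R := h0.mono (inf_le_left.trans (PN_le N0)) le_rfl
  set N := PN (PN N2) with hN
  have hle : N ≤ N2 := (PN_le _).trans (PN_le _)
  have h3 : F0 N R := h2.mono hle le_rfl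
  refine ⟨Quotient (clS N), finite_cl N, GP 𝒮 N, labP 𝒮 N, N,
    hle.trans (inf_le_right.trans inf_le_right), inferInstance, inferInstance,
    fun n hn h => (clS_eq.2 ⟨n, hn, rfl⟩).symm, ?_, ?_, ?_, ?_, ?_, ?_⟩
  · intro t u e
    obtain ⟨v, -, rfl⟩ := clS_eq.1 e
    rfl
  · intro t u x y hx hy hd e
    obtain ⟨v, hv, e'⟩ := clS_eq.1 e
    exact h3.eq hy hx (by rwa [d_comm]) hv e'.symm
  · intro t u c
    refine ⟨fun e => ?_, t, u, rfl, rfl, Or.inl (Or.inr c)⟩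
    obtain ⟨v, -, rfl⟩ := clS_eq.1 e
    exact G.irrefl c.adj
  · intro A hA t ht u hu
    exact mem_st_GP (Or.inr ⟨A, hA, ht, hu⟩)
  · rintro t u a b hb hd ⟨f1, f2, f3, f4, m4, n12, n23, n34⟩ e e1 e2
    obtain ⟨k, hk, c1⟩ := con_of_mem_st F e1
    obtain ⟨k', hk', c2⟩ := con_of_mem_st F e2
    obtain ⟨n, hn, rfl⟩ := clS_eq.1 (hk'.trans hk.symm)
    obtain ⟨x1, hx1, x, hx, A1, hA1, s1⟩ := c1.path F
    obtain ⟨x2, hx2, x', hx', A2, hA2, s2⟩ := (c2.smul F n).path F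
    have key : ∀ r ∈ sep a b, ∃ v ∈ N2, v • r ∈ A1 ∨ v • r ∈ A2 ∨ Stc (n • k') (v • r) := by
      intro r hr
      obtain ⟨v, hv, c⟩ := poly h2 hb (by omega) (PN_le _ hn) hx hx' hr
      refine ⟨v, hv, ?_⟩
      rcases Finset.mem_union.1 (sep_subset_union x x1 x' c) with c | c
      · exact Or.inl (s1 _ (mem_sep_comm.1 c))
      · rcases Finset.mem_union.1 (sep_subset_union x1 x2 x' c) with c | c
        · exact Or.inr (Or.inr (stc_of_sep_car hx1 hx2 c))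
        · exact Or.inr (Or.inl (s2 _ c))
    have pr : ∀ f f', f' ∈ sep a b → Nx Sim a f f' → ∀ v ∈ N2, ∀ v' ∈ N2,
        (∀ A, (A ∈ 𝒮 ∨ A = ∅) → ¬ (v • f ∈ A ∧ v' • f' ∈ A)) ∧
          ¬ (Stc (n • k') (v • f) ∧ Stc (n • k') (v' • f')) := by
      intro f f' m' nx v hv v' hv'
      obtain ⟨y, hy, y', hy', -, -, hyy⟩ := exists_car_close (nx.1.mem m') m'
      refine ⟨?_, lt_lvl h0 hy hy' (by omega) nx.2.1 hv.1 hv'.1⟩
      rintro A (hA | rfl) ⟨a1, a2⟩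
      · obtain ⟨z, z', hz⟩ := exists_br_of_lt nx.1
        refine nx.2.2 (h1 f f' z z' (v⁻¹ * v') hz (by have := hz.d_le hy hy'; omega)
          (N1.mul_mem (N1.inv_mem hv.2) hv'.2) (v⁻¹ • A) (F.inv _ _ hA) ?_ ?_)
        · simpa using Set.smul_mem_smul_set (a := v⁻¹) a1
        · rw [mul_smul]; exact Set.smul_mem_smul_set a2
      · exact a1
    have m3 := n34.1.mem m4
    have m2 := n23.1.mem m3
    have m1 := n12.1.mem m2
    obtain ⟨v1, w1, z1⟩ := key f1 m1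
    obtain ⟨v2, w2, z2⟩ := key f2 m2
    obtain ⟨v3, w3, z3⟩ := key f3 m3
    obtain ⟨v4, w4, z4⟩ := key f4 m4
    have p12 := pr _ _ m2 n12 v1 w1 v2 w2
    have p13 := pr _ _ m3 (n12.trans F n23) v1 w1 v3 w3
    have p14 := pr _ _ m4 ((n12.trans F n23).trans F n34) v1 w1 v4 w4
    have p23 := pr _ _ m3 n23 v2 w2 v3 w3
    have p24 := pr _ _ m4 (n23.trans F n34) v2 w2 v4 w4
    have p34 := pr _ _ m4 n34 v3 w3 v4 w4
    have a12 := p12.1 A1 hA1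
    have a13 := p13.1 A1 hA1
    have a14 := p14.1 A1 hA1
    have a23 := p23.1 A1 hA1
    have a24 := p24.1 A1 hA1
    have a34 := p34.1 A1 hA1
    have b12 := p12.1 A2 hA2
    have b13 := p13.1 A2 hA2
    have b14 := p14.1 A2 hA2
    have b23 := p23.1 A2 hA2
    have b24 := p24.1 A2 hA2
    have b34 := p34.1 A2 hA2
    have c12 := p12.2
    have c13 := p13.2
    have c14 := p14.2
    have c23 := p23.2
    have c24 := p24.2
    have c34 := p34.2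
    rcases z1 with z1 | z1 | z1 <;> rcases z2 with z2 | z2 | z2 <;>
      rcases z3 with z3 | z3 | z3 <;> rcases z4 with z4 | z4 | z4 <;>
      first
        | exact a12 ⟨z1, z2⟩ | exact a13 ⟨z1, z3⟩ | exact a14 ⟨z1, z4⟩ | exact a23 ⟨z2, z3⟩
        | exact a24 ⟨z2, z4⟩ | exact a34 ⟨z3, z4⟩
        | exact b12 ⟨z1, z2⟩ | exact b13 ⟨z1, z3⟩ | exact b14 ⟨z1, z4⟩ | exact b23 ⟨z2, z3⟩
        | exact b24 ⟨z2, z4⟩ | exact b34 ⟨z3, z4⟩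
        | exact c12 ⟨z1, z2⟩ | exact c13 ⟨z1, z3⟩ | exact c14 ⟨z1, z4⟩ | exact c23 ⟨z2, z3⟩
        | exact c24 ⟨z2, z4⟩ | exact c34 ⟨z3, z4⟩
  · intro t u t' u' a b a' b' hb hb' hd hd' e1 e2
    obtain ⟨n, hn, rfl⟩ := clS_eq.1 e1
    obtain ⟨n', hn', rfl⟩ := clS_eq.1 e2
    exact uq h2 hb hb' (by omega) (by omega) hn hn'

end Pool.Agent.MP_c34dea_an.H6
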