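import Pool.Agent.MP_c34dea_an.H23.BUpd
import Pool.Agent.MP_c34dea_an.H6.NT

set_option autoImplicit false

open scoped Pointwise

namespace Pool.Agent.MP_c34dea_an.H6

open H66

/-- removing long intervals from an index range -/
theorem idx_split (e : ℕ → ℕ → Prop) (a n : ℕ) (ha : 1 ≤ a) (k : ℕ) : ∀ i0, i0 + k = n →
    ∃ (Is : List (ℕ × ℕ)) (n' : ℕ) (κ : ℕ → ℕ),
      (∀ J ∈ Is, i0 ≤ J.1 ∧ J.1 + a ≤ J.2 + 1 ∧ J.2 < n ∧ e J.1 J.2) ∧
      Is.Pairwise (fun J J' => J.2 < J'.1) ∧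
      k = n' + (Is.map (fun J => J.2 + 1 - J.1)).sum ∧
      (∀ i < n', i0 ≤ κ i ∧ κ i < n ∧ ∀ j, κ i + a ≤ j + 1 → j < n → ¬ e (κ i) j) ∧
      ∀ i j, i < j → j < n' → κ i < κ j := by
  induction k using Nat.strong_induction_on with
  | _ k ih =>
    intro i0 hk
    rcases Nat.eq_zero_or_pos k with rfl | hpos
    · exact ⟨[], 0, id, by simp, by simp, by simp, by simp, by simp⟩
    by_cases c : ∃ j, i0 + a ≤ j + 1 ∧ j < n ∧ e i0 j
    · obtain ⟨j, h1, h2, h3⟩ := c
      obtain ⟨Is, n', κ, a1, a2, a3, a4, a5⟩ := ih (n - (j + 1)) (by omega) (j + 1) (by omega)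
      refine ⟨(i0, j) :: Is, n', κ, ?_, ?_, ?_, ?_, a5⟩
      · intro J hJ
        rcases List.mem_cons.1 hJ with rfl | hJ
        · exact ⟨le_rfl, h1, h2, h3⟩
        · have := a1 J hJ
          exact ⟨by omega, this.2⟩
      · refine List.pairwise_cons.2 ⟨fun J hJ => ?_, a2⟩
        have := (a1 J hJ).1
        show j < J.1
        omega
      · simp only [List.map_cons, List.sum_cons]
        omega
      · intro i hi
        have := a4 i hi
        exact ⟨by omega, this.2⟩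
    · obtain ⟨Is, n', κ, a1, a2, a3, a4, a5⟩ := ih (k - 1) (by omega) (i0 + 1) (by omega)
      refine ⟨Is, n' + 1, fun i => Nat.casesOn i i0 κ, ?_, a2, by omega, ?_, ?_⟩
      · intro J hJ
        have := a1 J hJ
        exact ⟨by omega, this.2⟩
      · intro i hi
        cases i with
        | zero => exact ⟨le_rfl, by show i0 < n; omega, fun j h1 h2 h3 => c ⟨j, h1, h2, h3⟩⟩
        | succ i =>
          have := a4 i (by omega)
          exact ⟨by show i0 ≤ κ i; omega, this.2⟩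
      · intro i j hij hj
        cases j with
        | zero => omega
        | succ j =>
          cases i with
          | zero =>
            have := (a4 j (by omega)).1
            show i0 < κ j
            omega
          | succ i => exact a5 i j (by omega) (by omega)

theorem add_le_of_mono {κ : ℕ → ℕ} {n : ℕ} (h : ∀ i j, i < j → j < n → κ i < κ j) (i k : ℕ)
    (hk : i + k < n) : κ i + k ≤ κ (i + k) := by
  induction k with
  | zero => simp
  | succ k ih =>
    have h1 := ih (by omega)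
    have h2 := h (i + k) (i + (k + 1)) (by omega) hk
    omega

variable {S : Type} {G : SimpleGraph S}

/-- weak order -/
def Lq (p : W G) (a b : Hyp G) : Prop := a = b ∨ Lt p a b

theorem Lq.lt {p : W G} {a b c : Hyp G} (h : Lq p a b) (h' : Lt p b c) : Lt p a c := by
  rcases h with rfl | h
  · exact h'
  · exact h.trans h'

theorem lt_lq {p : W G} {a b c : Hyp G} (h : Lt p a b) (h' : Lq p b c) : Lt p a c := by
  rcases h' with rfl | h'
  · exact h
  · exact h.trans h'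

theorem Lq.trans {p : W G} {a b c : Hyp G} (h : Lq p a b) (h' : Lq p b c) : Lq p a c := by
  rcases h with rfl | h
  · exact h'
  · exact Or.inr (lt_lq h h')

theorem Lq.mem {p y : W G} {a b : Hyp G} (h : Lq p a b) (hy : b ∈ sep p y) : a ∈ sep p y := by
  rcases h with rfl | h
  · exact hy
  · exact h.mem hy

/-- enumeration of a chain -/
theorem exists_enum (p : W G) (z : Hyp G) (n : ℕ) : ∀ B : Finset (Hyp G), B.card = n →
    (∀ a ∈ B, ∀ b ∈ B, a ≠ b → Lt p a b ∨ Lt p b a) →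
    ∃ f : ℕ → Hyp G, (∀ i < n, f i ∈ B) ∧ ∀ i j, i < j → j < n → Lt p (f i) (f j) := by
  induction n with
  | zero => exact fun B _ _ => ⟨fun _ => z, by simp, by simp⟩
  | succ n ih =>
    intro B hB ht
    obtain ⟨M, hM, hmax⟩ := H23.exists_lt_max p (Finset.card_pos.1 (by omega : 0 < B.card))
    obtain ⟨f, h1, h2⟩ := ih (B.erase M) (by rw [Finset.card_erase_of_mem hM]; omega)
      fun a ha b hb => ht a (Finset.mem_of_mem_erase ha) b (Finset.mem_of_mem_erase hb)
    refine ⟨fun i => if i < n then f i else M, fun i hi => ?_, fun i j hij hj => ?_⟩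
    · by_cases c : i < n
      · simp only [c, if_true]; exact Finset.mem_of_mem_erase (h1 i c)
      · simp only [c, if_false]; exact hM
    · have c1 : i < n := by omega
      by_cases c : j < n
      · simp only [c, c1, if_true]; exact h2 i j hij c
      · simp only [c, c1, if_true, if_false]
        have m := Finset.mem_erase.1 (h1 i c1)
        exact (ht _ m.2 _ hM m.1).resolve_right (hmax _ m.2)

theorem Br.mem_of_Btw {t u r : Hyp G} {a b : W G} (hb : Br t u a b) (hr : r ∈ H23.Btw t u)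
    (n1 : r ≠ t) (n2 : r ≠ u) : r ∈ sep a b := by
  have e1 := mem_sep_car_gen hb.ha
  have e2 := mem_sep_car_gen hb.hb
  have m1 : t ∉ sep a b := fun c => hb.left t c (Stc.refl t)
  have m2 : u ∉ sep a b := fun c => hb.right u c (Stc.refl u)
  have key : ∀ k, k ∈ sep (a * gen G t.1) (b * gen G u.1) ↔
      (k = t ∧ ¬ ((k ∈ sep a b ∧ k ≠ u) ∨ (k = u ∧ k ∉ sep a b))) ∨
        (((k ∈ sep a b ∧ k ≠ u) ∨ (k = u ∧ k ∉ sep a b)) ∧ k ≠ t) := by
    intro k
    rw [mem_sep_trans _ a, mem_sep_trans a b, sep_comm _ a, e1, e2]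
    simp
  have := hr (a * gen G t.1) (b * gen G u.1) (by rw [key]; simp [m1, hb.ne])
    (by rw [key]; simp [m2, hb.ne.symm])
  rw [key] at this
  simpa [n1, n2] using this

theorem lq_of_Btw {p : W G} {t u r : Hyp G} (h : Lt p t u) (hr : r ∈ H23.Btw t u) :
    Lq p t r ∧ Lq p r u := by
  by_cases e1 : r = t
  · exact ⟨Or.inl e1.symm, Or.inr (e1 ▸ h)⟩
  by_cases e2 : r = u
  · exact ⟨Or.inr (e2 ▸ h), Or.inl e2⟩
  obtain ⟨a, b, hb⟩ := exists_br_of_lt h
  have := hb.lt_of_mem h (hb.mem_of_Btw hr e1 e2)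
  exact ⟨Or.inr this.1, Or.inr this.2⟩

/-- the spread property seen from a base point -/
def SpAt (E : Hyp G → Hyp G → Prop) (y : W G) (t u : Hyp G) : Prop :=
  ∃ f1 f2 f3 f4, Lt y t f1 ∧ Nx E y f1 f2 ∧ Nx E y f2 f3 ∧ Nx E y f3 f4 ∧ Lt y f4 u

theorem Br.sp_of_spAt {E : Hyp G → Hyp G → Prop} {y a b : W G} {t u : Hyp G} (hb : Br t u a b)
    (h : SpAt E y t u) : Sp E a b := by
  obtain ⟨f1, f2, f3, f4, l0, n1, n2, n3, l4⟩ := h
  have k1 : f1 ∉ sep y a := l0.not_mem_of_car hb.ha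
  have k2 : f2 ∉ sep y a := fun x => k1 (n1.1.mem x)
  have k3 : f3 ∉ sep y a := fun x => k2 (n2.1.mem x)
  exact ⟨f1, f2, f3, f4, hb.mem_of_lt (((l0.trans n1.1).trans n2.1).trans n3.1) l4,
    n1.base k1, n2.base k2, n3.base k3⟩

theorem Br.spAt_of_sp {E : Hyp G → Hyp G → Prop} {y a b : W G} {t u : Hyp G} (hb : Br t u a b)
    (hl : Lt y t u) (h : Sp E a b) : SpAt E y t u := by
  obtain ⟨f1, f2, f3, f4, m4, n1, n2, n3⟩ := h
  have m3 := n3.1.mem m4
  have m2 := n2.1.mem m3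
  have m1 := n1.1.mem m2
  have k : ∀ f ∈ sep a b, f ∉ sep a y := fun f hf => by
    rw [sep_comm]; exact hb.not_mem_base hl hf
  exact ⟨f1, f2, f3, f4, (hb.lt_of_mem hl m1).1, n1.base (k _ m1), n2.base (k _ m2),
    n3.base (k _ m3), (hb.lt_of_mem hl m4).2⟩

section Lev

variable {S' : Type} {G' : SimpleGraph S'} {𝒮 : Set (Set (Hyp G))} {E : Hyp G → Hyp G → Prop}
  {ρ : ℕ} {L : Lab G G'} {N : Subgroup (W G)}

theorem Lev.injOn (h : Lev 𝒮 E ρ L N) {p q : W G} (hd : d p q ≤ ρ) :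
    Set.InjOn L.hmap (sep p q : Set (Hyp G)) := by
  intro t ht u hu e
  obtain ⟨x, hx, y, hy, -, -, hxy⟩ := exists_car_close ht hu
  exact h.inj t u x y hx hy (by omega) (congrArg Sigma.fst e)

theorem Lev.sep_eq (h : Lev 𝒮 E ρ L N) {p q : W G} (hd : d p q ≤ ρ) :
    sep (L.phi p) (L.phi q) = (sep p q).image L.hmap :=
  L.sep_phi_of_d_eq (L.d_eq_of_injOn (h.injOn hd))

theorem Lev.mem (h : Lev 𝒮 E ρ L N) {p q : W G} (hd : d p q ≤ ρ) {t : Hyp G} (ht : t ∈ sep p q) :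
    L.hmap t ∈ sep (L.phi p) (L.phi q) := by
  rw [h.sep_eq hd]; exact Finset.mem_image_of_mem _ ht

theorem Lev.stc (h : Lev 𝒮 E ρ L N) {t u : Hyp G} (c : Stc t u) : Stc (L.hmap t) (L.hmap u) := by
  rcases c with c | c
  · exact Or.inl (by rw [c])
  · exact Or.inr (L.cross_hmap c (h.adj _ _ c))

theorem Lev.lt_of_map (h : Lev 𝒮 E ρ L N) {p q : W G} (hd : d p q ≤ ρ) {t u : Hyp G}
    (ht : t ∈ sep p q) (hu : u ∈ sep p q) (hl : Lt (L.phi p) (L.hmap t) (L.hmap u)) : Lt p t u := by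
  have hn : ¬ Stc t u := fun c => by
    rcases h.stc c with c | c
    · exact hl.ne c.symm
    · exact hl.not_cross c
  rcases H23.lt_or_lt ht hu hn with c | c
  · exact c
  · obtain ⟨x, hx, hc, -, -⟩ := exists_cross_pt ht
    have h1 := h.mem ((Finset.card_le_card hx).trans hd) (c.mem_of_car hc)
    exact absurd h1 (hl.not_mem_of_car (L.phi_mem_car hc))

theorem Lev.lq_of_map (h : Lev 𝒮 E ρ L N) {p q : W G} (hd : d p q ≤ ρ) {t u : Hyp G}
    (ht : t ∈ sep p q) (hu : u ∈ sep p q) (hl : Lq (L.phi p) (L.hmap t) (L.hmap u)) : Lq p t u := by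
  rcases hl with e | hl
  · exact Or.inl (h.injOn hd ht hu e)
  · exact Or.inr (h.lt_of_map hd ht hu hl)

theorem Lev.tb (h : Lev 𝒮 E ρ L N) {t u : Hyp G} {a b : W G} (hb : Br t u a b) (hd : d a b ≤ ρ)
    (hs : Sp E a b) : H23.TB0 (L.hmap t) (L.hmap u) :=
  H23.tb0_iff.2 fun k c => h.nt t u a b hb hd hs k.1 (Stc.mem_st c.1) (Stc.mem_st c.2)

/-- walls beyond a spread chain that leaves the deepest descending direction ascend -/
theorem Lev.struct {m : ℕ} (h : Lev 𝒮 E ρ L N) (hρ : 2 * m ≤ ρ) (o : W G') (y : W G) :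
    ∃ o' : W G, ∀ y', d y y' ≤ m → ∀ e e' D : Hyp G, D ∈ sep y y' → e ∉ sep y o' → Lt y e e' →
      TB0 e e' → SpAt E y e' D → L.hmap D ∉ sep (L.phi y) o := by
  classical
  let P : ℕ → Prop := fun n => ∃ t g, g ∈ car t ∧ (∀ z ∈ car t, g ∈ I y z) ∧
    L.hmap t ∈ sep (L.phi y) o ∧ d y g = n
  have hP : ∀ y', d y y' ≤ m → ∀ D ∈ sep y y', L.hmap D ∈ sep (L.phi y) o →
      ∃ g, g ∈ car D ∧ (∀ z ∈ car D, g ∈ I y z) ∧ d y g ≤ m ∧ P (d y g) := by
    intro y' hd D hD hD'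
    obtain ⟨g, g1, g2⟩ := exists_gate_car y D
    obtain ⟨x, hx, hc, -, -⟩ := exists_cross_pt hD
    exact ⟨g, g1, g2, ((Finset.card_le_card (g2 x hc)).trans (Finset.card_le_card hx)).trans hd,
      D, g, g1, g2, hD', rfl⟩
  by_cases hex : ∃ n ≤ m, P n
  swap
  · refine ⟨y, fun y' hd e e' D hD _ _ _ _ hD' => ?_⟩
    obtain ⟨g, -, -, g3, g4⟩ := hP y' hd D hD hD'
    exact hex ⟨_, g3, g4⟩
  obtain ⟨n, hn, hPn⟩ := hex
  obtain ⟨K, g, k1, k2, k3, k4⟩ := Nat.findGreatest_spec hn hPn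
  have k5 : d y g ≤ m := k4 ▸ Nat.findGreatest_le m
  have hK : K ∉ sep y g := fun c => (lt_of_gate k2 c).ne rfl
  refine ⟨g * gen G K.1, fun y' hd e e' D hD he l1 tb hsp hD' => ?_⟩
  obtain ⟨gD, g1, g2, g3, g4⟩ := hP y' hd D hD hD'
  have hmax : d y gD ≤ d y g := k4 ▸ Nat.le_findGreatest g3 g4
  have hso : ∀ k, k ∈ sep y (g * gen G K.1) ↔ k ∈ sep y g ∨ k = K := by
    intro k
    rw [mem_sep_trans y g, mem_sep_car_gen k1, Finset.mem_singleton]
    by_cases c : k = K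
    · simp [c, hK]
    · simp [c]
  rw [hso, not_or] at he
  have he' : e' ∉ sep y g := fun c => he.1 (l1.mem c)
  have hcar : ∀ x ∈ car K, e' ∉ sep y x := by
    intro x hx c
    have c1 : e' ∈ sep g x := by rw [mem_sep_trans g y x, sep_comm g y]; tauto
    have c2 : e ∈ sep g x := by
      have := l1.mem c
      rw [mem_sep_trans g y x, sep_comm g y]; tauto
    exact tb.not_stc K ⟨stc_of_sep_car k1 hx c2, stc_of_sep_car k1 hx c1⟩
  obtain ⟨f1, f2, f3, f4, l0, n1, n2, n3, l4⟩ := hsp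
  have lD : Lt y e' D := (((l0.trans n1.1).trans n2.1).trans n3.1).trans l4
  have hn : ¬ Stc K D := fun c => by
    obtain ⟨x, x1, x2⟩ := c.exists_pt
    exact hcar x x1 (lD.mem_of_car x2)
  obtain ⟨a, b, hb⟩ := exists_br hn
  have dg : d g gD ≤ ρ := by
    have := d_triangle g y gD
    rw [d_comm g y] at this
    omega
  have q1 : f1 ∉ sep y a := fun c => hcar a hb.ha (l0.mem c)
  have q2 : f2 ∉ sep y a := fun c => q1 (n1.1.mem c)
  have q3 : f3 ∉ sep y a := fun c => q2 (n2.1.mem c)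
  have q4 : f4 ∉ sep y a := fun c => q3 (n3.1.mem c)
  have m4 : f4 ∈ sep a b := by
    have := l4.mem_of_car hb.hb
    rw [mem_sep_trans a y b, sep_comm a y]; tauto
  have tb' := h.tb hb ((hb.d_le k1 g1).trans dg)
    ⟨f1, f2, f3, f4, m4, n1.base q1, n2.base q2, n3.base q3⟩
  have back : ∀ (t : Hyp G) (gt z : W G), gt ∈ car t → d y gt ≤ m → d y z ≤ m →
      L.hmap t ∈ sep (L.phi y) (L.phi z) → t ∈ sep y z := by
    intro t gt z c1 c2 c3 c4
    obtain ⟨r, hr, e1⟩ := Finset.mem_image.1 (L.sep_phi_subset y z c4)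
    obtain ⟨x, hx, hc, -, -⟩ := exists_cross_pt hr
    have d1 : d y x ≤ d y z := Finset.card_le_card hx
    have d2 := d_triangle x y gt
    rw [d_comm x y] at d2
    rw [← h.inj r t x gt hc c1 (by omega) (congrArg Sigma.fst e1)]
    exact hr
  rcases H23.lt_or_lt k3 hD' tb'.not_stt with c | c
  · have c1 := back K g gD k1 k5 g3 (c.mem_of_car (L.phi_mem_car g1))
    obtain ⟨x, hx, hc, hx', -⟩ := exists_cross_pt c1
    have d1 : d y g ≤ d y x := Finset.card_le_card (k2 x hc)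
    have d2 : d y x < d y gD := Finset.card_lt_card ⟨hx, fun z => hx' (z c1)⟩
    omega
  · have c1 := back D gD g g1 g3 k5 (c.mem_of_car (L.phi_mem_car k1))
    exact he' (lD.mem c1)

end Lev

end Pool.Agent.MP_c34dea_an.H6
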