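import Pool.Agent.MP_c34dea_an.H6.Levels

set_option autoImplicit false

open scoped symmDiff Pointwise

namespace Pool.Agent.MP_c34dea_an.H6

open H66

variable {S : Type} {G : SimpleGraph S}

open Classical in
/-- move across the edge labelled `s` when its hyperplane belongs to `A` -/
noncomputable def tkStep (A : Set (Hyp G)) (s : S) (p : W G) : W G :=
  if hyp p s ∈ A then p * gen G s else p

theorem tkStep_pos {A : Set (Hyp G)} {s : S} {p : W G} (h : hyp p s ∈ A) :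
    tkStep A s p = p * gen G s := if_pos h

theorem tkStep_neg {A : Set (Hyp G)} {s : S} {p : W G} (h : hyp p s ∉ A) :
    tkStep A s p = p := if_neg h

theorem tkStep_inv (A : Set (Hyp G)) (s : S) (p : W G) : tkStep A s (tkStep A s p) = p := by
  by_cases h : hyp p s ∈ A
  · rw [tkStep_pos h, tkStep_pos (by simpa using h), mul_gen_gen]
  · rw [tkStep_neg h, tkStep_neg h]

theorem tkStep_comm (A : Set (Hyp G)) (s t : S) (h : G.Adj s t) (p : W G) :
    tkStep A s (tkStep A t p) = tkStep A t (tkStep A s p) := by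
  have e1 : hyp (p * gen G t) s = hyp p s := hyp_mul_gen (mem_st_of_adj h)
  have e2 : hyp (p * gen G s) t = hyp p t := hyp_mul_gen (mem_st_of_adj h.symm)
  by_cases h1 : hyp p s ∈ A <;> by_cases h2 : hyp p t ∈ A
  · rw [tkStep_pos h1, tkStep_pos h2, tkStep_pos (e1 ▸ h1), tkStep_pos (e2 ▸ h2), mul_assoc,
      mul_assoc, gen_comm_of_adj h]
  · rw [tkStep_pos h1, tkStep_neg h2, tkStep_pos h1, tkStep_neg (e2 ▸ h2)]
  · rw [tkStep_neg h1, tkStep_pos h2, tkStep_neg (e1 ▸ h1)]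
  · rw [tkStep_neg h1, tkStep_neg h2, tkStep_neg h1]

/-- the token action -/
noncomputable def tk (A : Set (Hyp G)) (p g : W G) : W G :=
  ract (tkStep A) (tkStep_inv A) (tkStep_comm A) p g

@[simp] theorem tk_one (A : Set (Hyp G)) (p : W G) : tk A p 1 = p := ract_one p

theorem tk_mul (A : Set (Hyp G)) (p g g' : W G) : tk A p (g * g') = tk A (tk A p g) g' :=
  ract_mul p g g'

theorem tk_gen (A : Set (Hyp G)) (p : W G) (s : S) : tk A p (gen G s) = tkStep A s p :=
  ract_gen p s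

theorem tk_mul_gen (A : Set (Hyp G)) (p g : W G) (s : S) :
    tk A p (g * gen G s) = tkStep A s (tk A p g) := ract_mul_gen p g s

theorem tk_mem_Par (A : Set (Hyp G)) (p : W G) {B : Set S} {g : W G} (hg : g ∈ Par G B) :
    p⁻¹ * tk A p g ∈ Par G B := by
  refine Par_ind (P := fun g => p⁻¹ * tk A p g ∈ Par G B) (by simp) ?_ hg
  intro g s _ hs ih
  rw [tk_mul_gen]
  by_cases h : hyp (tk A p g) s ∈ A
  · rw [tkStep_pos h, ← mul_assoc]
    exact Subgroup.mul_mem _ ih (gen_mem_Par hs)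
  · rwa [tkStep_neg h]

theorem tk_mem_car (A : Set (Hyp G)) {p g : W G} {t : Hyp G} (hp : p ∈ car t)
    (hg : g ∈ Par G (st G t.1)) : tk A p g ∈ car t :=
  (mem_car_iff hp).2 (tk_mem_Par A p hg)

theorem sep_tk (A : Set (Hyp G)) (p g : W G) : ∀ k ∈ sep p (tk A p g), k ∈ A := by
  induction g using W_ind with
  | h1 => simp
  | hs g s ih =>
    rw [tk_mul_gen]
    by_cases h : hyp (tk A p g) s ∈ A
    · rw [tkStep_pos h]
      intro k hk
      rw [mem_sep_mul_gen] at hk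
      rcases hk with hk | hk
      · exact ih k hk.1
      · rw [hk.1]; exact h
    · rwa [tkStep_neg h]

theorem tk_eq {A : Set (Hyp G)} {p q : W G} (h : ∀ k ∈ sep p q, k ∈ A) :
    tk A p (p⁻¹ * q) = q := by
  induction p using geod_ind (q := q) with
  | h0 => simp
  | hs p s hs ih =>
    have e : p⁻¹ * q = gen G s * ((p * gen G s)⁻¹ * q) := by
      simp [← mul_assoc, gen_mul_self]
    rw [e, tk_mul, tk_gen, tkStep_pos (h _ hs)]
    exact ih fun k hk => h k (by rw [sep_step hs] at hk; exact Finset.mem_of_mem_erase hk)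

theorem tk_smul {A : Set (Hyp G)} {e : W G} (he : ∀ k, e • k ∈ A ↔ k ∈ A) (p g : W G) :
    tk A (e * p) g = e * tk A p g := by
  induction g using W_ind with
  | h1 => simp
  | hs g s ih =>
    rw [tk_mul_gen, tk_mul_gen, ih]
    by_cases h : hyp (tk A p g) s ∈ A
    · rw [tkStep_pos h, tkStep_pos (by rw [← smul_hyp, he]; exact h), mul_assoc]
    · rw [tkStep_neg h, tkStep_neg (by rw [← smul_hyp, he]; exact h)]

theorem tk_word (A : Set (Hyp G)) (l : List S) (p : W G) :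
    tk A p (word G l) = p * word G l ∨ d p (tk A p (word G l)) < l.length := by
  induction l generalizing p with
  | nil => simp
  | cons s l ih =>
    rw [word_cons, tk_mul, tk_gen, List.length_cons]
    have hle : ∀ q, d q (tk A q (word G l)) ≤ l.length := fun q => by
      rcases ih q with e | e
      · rw [e]; exact d_word_le q l
      · exact e.le
    by_cases h : hyp p s ∈ A
    · rw [tkStep_pos h]
      rcases ih (p * gen G s) with e | e
      · left; rw [e, mul_assoc]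
      · right
        have := d_triangle p (p * gen G s) (tk A (p * gen G s) (word G l))
        rw [d_gen] at this
        omega
    · rw [tkStep_neg h]
      right
      have := hle p
      omega

theorem tk_full (A : Set (Hyp G)) (p a b : W G) :
    tk A p (a⁻¹ * b) = p * (a⁻¹ * b) ∨ d p (tk A p (a⁻¹ * b)) < d a b := by
  obtain ⟨l, e1, e2⟩ := exists_geodesic a b
  have : a⁻¹ * b = word G l := by rw [← e1]; simp
  rw [this, ← e2]
  exact tk_word A l p

/-- the stabiliser of a set of hyperplanes -/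
def stabA (A : Set (Hyp G)) : Subgroup (W G) where
  carrier := {e | ∀ k, e • k ∈ A ↔ k ∈ A}
  one_mem' := by simp
  mul_mem' := by
    intro a b ha hb k
    rw [mul_smul, ha, hb]
  inv_mem' := by
    intro a ha k
    rw [← ha]; simp

/-- a finite index normal subgroup acting trivially on tokens modulo `M` -/
theorem exists_tk_ker {A : Set (Hyp G)} {Ω F : Set (W G)}
    (hΩ : ∀ p ∈ Ω, ∀ q, (∀ k ∈ sep p q, k ∈ A) → q ∈ Ω) (hF : F.Finite)
    (hcov : ∀ p ∈ Ω, ∃ e ∈ stabA A, e⁻¹ * p ∈ F) (M : Subgroup (W G)) [hM : M.Normal]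
    [M.FiniteIndex] :
    ∃ N : Subgroup (W G), N.Normal ∧ N.FiniteIndex ∧
      ∀ n ∈ N, ∀ z ∈ Ω, ∃ h ∈ M, h ∈ stabA A ∧ tk A z n = h * z := by
  have hin : ∀ z ∈ Ω, ∀ g, tk A z g ∈ Ω := fun z hz g => hΩ z hz _ (sep_tk A z g)
  let N : Subgroup (W G) :=
    { carrier := {n | ∀ z ∈ Ω, ∃ h ∈ M, h ∈ stabA A ∧ tk A z n = h * z}
      one_mem' := fun z _ => ⟨1, M.one_mem, (stabA A).one_mem, by simp⟩
      mul_mem' := by
        intro a b ha hb z hz
        obtain ⟨h, h1, h2, h3⟩ := ha z hz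
        obtain ⟨h', h1', h2', h3'⟩ := hb z hz
        refine ⟨h * h', M.mul_mem h1 h1', (stabA A).mul_mem h2 h2', ?_⟩
        rw [tk_mul, h3, tk_smul h2, h3', mul_assoc]
      inv_mem' := by
        intro a ha z hz
        obtain ⟨h, h1, h2, h3⟩ := ha z hz
        refine ⟨h⁻¹, M.inv_mem h1, (stabA A).inv_mem h2, ?_⟩
        have : tk A (h * z) a⁻¹ = z := by rw [← h3, ← tk_mul]; simp
        rw [tk_smul h2] at this
        rw [eq_inv_mul_iff_mul_eq, this] }
  refine ⟨N, ⟨fun n hn g z hz => ?_⟩, ?_, fun n hn => hn⟩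
  · obtain ⟨h, h1, h2, h3⟩ := hn _ (hin z hz g)
    refine ⟨h, h1, h2, ?_⟩
    rw [tk_mul, tk_mul, h3, tk_smul h2, ← tk_mul]
    simp
  · choose! ee he1 he2 using hcov
    have := hF.to_subtype
    let cl : Ω → F × (W G ⧸ M) := fun p => (⟨(ee p)⁻¹ * p, he2 p p.2⟩, (ee p : W G ⧸ M))
    have hcl : ∀ p q : Ω, cl p = cl q → ∃ h ∈ M, h ∈ stabA A ∧ (q : W G) = h * p := by
      intro p q e
      have e1 : (ee p)⁻¹ * p = (ee q)⁻¹ * q := congrArg (fun x => (x.1 : W G)) e
      have e2 : (ee p)⁻¹ * ee q ∈ M := QuotientGroup.eq.1 (congrArg Prod.snd e)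
      refine ⟨ee q * (ee p)⁻¹, ?_, (stabA A).mul_mem (he1 q q.2) ((stabA A).inv_mem (he1 p p.2)), ?_⟩
      · have := hM.conj_mem _ e2 (ee p)
        simpa [mul_assoc] using this
      · rw [mul_assoc, e1]; simp
    let rep : Set.range cl → Ω := fun c => c.2.choose
    have hrep : ∀ c, cl (rep c) = c := fun c => c.2.choose_spec
    refine fi_of_map (fun g => fun c : Set.range cl => cl ⟨tk A (rep c) g, hin _ (rep c).2 g⟩) ?_
    intro g g' e z hz
    let z' : Ω := ⟨tk A z g⁻¹, hin z hz _⟩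
    let c : Set.range cl := ⟨cl z', z', rfl⟩
    obtain ⟨h, h1, h2, h3⟩ := hcl _ _ (hrep c)
    obtain ⟨h', h1', h2', h3'⟩ := hcl _ _ (congrFun e c)
    have h3 : tk A z g⁻¹ = h * rep c := h3
    have h3' : tk A (rep c) g' = h' * tk A (rep c) g := h3'
    have h4 : z = h * tk A (rep c) g := by
      rw [← tk_smul h2, ← h3, ← tk_mul]; simp
    refine ⟨h * h' * h⁻¹, hM.conj_mem _ h1' h,
      (stabA A).mul_mem ((stabA A).mul_mem h2 h2') ((stabA A).inv_mem h2), ?_⟩
    rw [tk_mul, h3, tk_smul h2, h3']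
    conv_rhs => rw [h4]
    simp [mul_assoc]

/-- faithfulness of the classes for a cocompact convex set of hyperplanes -/
theorem faith_of_hull [Finite S] {A : Set (Hyp G)} {Ω F : Set (W G)}
    (hΩ : ∀ p ∈ Ω, ∀ q, (∀ k ∈ sep p q, k ∈ A) → q ∈ Ω)
    (hc : ∀ p ∈ Ω, ∀ q ∈ Ω, ∀ k ∈ sep p q, k ∈ A) (hA : ∀ t ∈ A, ∃ z ∈ Ω, z ∈ car t)
    (hF : F.Finite) (hcov : ∀ p ∈ Ω, ∃ e ∈ stabA A, e⁻¹ * p ∈ F) (R : ℕ) :
    ∃ N : Subgroup (W G), N.Normal ∧ N.FiniteIndex ∧
      ∀ (t u : Hyp G) (a b n : W G), Br t u a b → d a b ≤ R → n ∈ N → t ∈ A → n • u ∈ A →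
        ∃ c : W G, c • t ∈ A ∧ c • u ∈ A := by
  obtain ⟨N', i1, i2, h0⟩ := exists_F0 G R
  obtain ⟨N, j1, j2, hN⟩ := exists_tk_ker hΩ hF hcov (PN N')
  refine ⟨N ⊓ PN N', inferInstance, inferInstance, ?_⟩
  intro t u a b n hb hd hn ht hu
  obtain ⟨z, hz, hzc⟩ := hA t ht
  obtain ⟨z', hz', hzc'⟩ := hA _ hu
  have hn1 : z⁻¹ * n⁻¹ * z⁻¹⁻¹ ∈ N := j1.conj_mem _ (N.inv_mem hn.1) _
  obtain ⟨h, h1, h2, h3⟩ := hN _ hn1 z hz
  have hw : n⁻¹ * z' ∈ car u := by rw [← smul_mem_car n]; simpa using hzc'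
  have e1 : tk A z (z⁻¹ * (n⁻¹ * z')) = h * z' := by
    have : z⁻¹ * (n⁻¹ * z') = z⁻¹ * n⁻¹ * z⁻¹⁻¹ * (z⁻¹ * z') := by simp [mul_assoc]
    rw [this, tk_mul, h3, tk_smul h2, tk_eq (hc z hz z' hz')]
  set y1 := tk A z (z⁻¹ * a) with hy1
  set y2 := tk A y1 (a⁻¹ * b) with hy2
  have c1 : y1 ∈ car t := tk_mem_car A hzc ((mem_car_iff hzc).1 hb.ha)
  have e2 : y2 = tk A (h * z') ((n⁻¹ * z')⁻¹ * b) := by
    rw [← e1, ← tk_mul, hy2, hy1, ← tk_mul]
    simp [mul_assoc]
  have c2 : y2 ∈ car ((h * n) • u) := by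
    rw [e2]
    refine tk_mem_car A ?_ ((mem_car_iff hw).1 hb.hb)
    rw [mul_smul]
    exact (smul_mem_car h).2 hzc'
  have hhn : h * n ∈ PN N' := (PN N').mul_mem h1 hn.2
  have hge : d a b ≤ d y1 y2 := by
    classical
    have hp : ∀ r ∈ sep a b, ∃ v ∈ N', v • r ∈ sep y1 y2 := fun r hr =>
      poly h0 hb (by omega) hhn c1 c2 hr
    choose! v hv1 hv2 using hp
    refine Finset.card_le_card_of_injOn (fun r => v r • r) (fun r hr => hv2 r hr) ?_
    intro r hr r' hr' e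
    have e' : v r • r = v r' • r' := e
    refine h0.eq_of_sep (p := a) (q := b) (by omega) hr' hr
      (N'.mul_mem (N'.inv_mem (hv1 r' hr')) (hv1 r hr)) ?_
    rw [mul_smul, e']; simp
  have e3 : y2 = y1 * (a⁻¹ * b) := by
    rcases tk_full A y1 a b with e | e
    · exact e
    · exact absurd e (not_lt.2 hge)
  refine ⟨y1 * a⁻¹, ?_, ?_⟩
  · have : (y1 * a⁻¹) • t = t := by
      refine eq_of_mem_car_of_label (y := y1) ?_ c1 rfl
      simpa using (smul_mem_car (y1 * a⁻¹)).2 hb.ha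
    rwa [this]
  · have : (y1 * a⁻¹) • u = (h * n) • u := by
      refine eq_of_mem_car_of_label (y := y2) ?_ c2 rfl
      have := (smul_mem_car (y1 * a⁻¹)).2 hb.hb
      rwa [mul_assoc, ← e3] at this
    rw [this, mul_smul]
    exact (h2 _).2 hu

end Pool.Agent.MP_c34dea_an.H6
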