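import Pool.Agent.MP_c34dea_an.H6.Bridge

set_option autoImplicit false

open scoped symmDiff Pointwise

namespace Pool.Agent.MP_c34dea_an.H6

open H66

variable {S : Type} {G : SimpleGraph S}

theorem fi_of_map {Γ α : Type*} [Group Γ] [Finite α] {H : Subgroup Γ} (f : Γ → α)
    (hf : ∀ g g', f g = f g' → g⁻¹ * g' ∈ H) : H.FiniteIndex := by
  have : Finite (Γ ⧸ H) := Finite.of_injective (fun q : Γ ⧸ H => f q.out) (fun q q' e => by
    rw [← q.out_eq', ← q'.out_eq']
    exact QuotientGroup.eq.2 (hf _ _ e))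
  exact Subgroup.finiteIndex_of_finite_quotient

/-- the classes of hyperplanes modulo a subgroup -/
def clS (N : Subgroup (W G)) : Setoid (Hyp G) where
  r h k := ∃ v ∈ N, k = v • h
  iseqv := ⟨fun h => ⟨1, N.one_mem, by simp⟩,
    fun ⟨v, hv, e⟩ => ⟨v⁻¹, N.inv_mem hv, by simp [e]⟩,
    fun ⟨v, hv, e⟩ ⟨w, hw, e'⟩ => ⟨w * v, N.mul_mem hw hv, by rw [e', e, mul_smul]⟩⟩

theorem clS_eq {N : Subgroup (W G)} {h k : Hyp G} :
    Quotient.mk (clS N) h = Quotient.mk (clS N) k ↔ ∃ v ∈ N, k = v • h := Quotient.eq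

theorem finite_cl [Finite S] (N : Subgroup (W G)) [hN : N.Normal] [N.FiniteIndex] :
    Finite (Quotient (clS N)) := by
  refine Finite.of_surjective
    (fun p : S × (W G ⧸ N) => Quotient.mk (clS N) (hyp p.2.out p.1)) ?_
  intro c
  obtain ⟨h, rfl⟩ := Quotient.exists_rep c
  obtain ⟨x, hx⟩ := exists_hyp h
  refine ⟨(h.1, (x : W G ⧸ N)), clS_eq.2 ?_⟩
  have e : (((x : W G ⧸ N).out : W G) : W G ⧸ N) = x := QuotientGroup.out_eq' _
  have h1 := QuotientGroup.eq.1 e
  refine ⟨x * ((x : W G ⧸ N).out)⁻¹, ?_, ?_⟩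
  · have := hN.conj_mem _ h1 (x : W G ⧸ N).out
    simpa [mul_assoc] using this
  · rw [smul_hyp]; simp [hx]

open Classical in
/-- the number of hyperplanes in the class of `h` separating `p` and `q` -/
noncomputable def cc (N : Subgroup (W G)) (p q : W G) (h : Hyp G) : ℕ :=
  ((sep p q).filter (fun k => ∃ v ∈ N, k = v • h)).card

theorem cc_self (N : Subgroup (W G)) (p : W G) (h : Hyp G) : cc N p p h = 0 := by simp [cc]

theorem cc_comm (N : Subgroup (W G)) (p q : W G) (h : Hyp G) : cc N p q h = cc N q p h := by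
  unfold cc; rw [sep_comm]

theorem cc_trans (N : Subgroup (W G)) (p q r : W G) (h : Hyp G) :
    Even (cc N p r h) ↔ (Even (cc N p q h) ↔ Even (cc N q r h)) := by
  classical
  unfold cc
  set P := fun k : Hyp G => ∃ v ∈ N, k = v • h
  have e : (sep p r).filter P = (sep p q).filter P ∆ (sep q r).filter P := by
    ext k
    rw [Finset.mem_symmDiff]
    simp only [Finset.mem_filter]
    rw [mem_sep_trans p q r]
    by_cases x : P k <;> simp [x]
  rw [e]
  set A := (sep p q).filter P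
  set B := (sep q r).filter P
  have h1 : (A ∆ B).card = (A \ B).card + (B \ A).card := by
    rw [symmDiff_def, Finset.sup_eq_union, Finset.card_union_of_disjoint disjoint_sdiff_sdiff]
  have h2 := Finset.card_sdiff_add_card_inter A B
  have h3 := Finset.card_sdiff_add_card_inter B A
  rw [Finset.inter_comm] at h3
  simp only [Nat.even_iff]
  omega

theorem cc_congr {N : Subgroup (W G)} (p q : W G) {h k : Hyp G} (e : ∃ v ∈ N, k = v • h) :
    cc N p q k = cc N p q h := by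
  classical
  unfold cc
  congr 1
  refine Finset.filter_congr fun j _ => ⟨fun x => ?_, fun x => ?_⟩
  · exact (clS N).trans e x
  · exact (clS N).trans ((clS N).symm e) x

theorem cc_smul {N : Subgroup (W G)} [hN : N.Normal] (g p q : W G) (h : Hyp G) :
    cc N (g * p) (g * q) (g • h) = cc N p q h := by
  classical
  unfold cc
  rw [sep_smul, Finset.filter_image, Finset.card_image_of_injective _ (MulAction.injective g)]
  congr 1
  refine Finset.filter_congr fun j _ => ⟨?_, ?_⟩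
  · rintro ⟨v, hv, e⟩
    refine ⟨g⁻¹ * v * g⁻¹⁻¹, hN.conj_mem _ hv _, ?_⟩
    rw [inv_inv, mul_smul, mul_smul, ← e, inv_smul_smul]
  · rintro ⟨v, hv, e⟩
    refine ⟨g * v * g⁻¹, hN.conj_mem _ hv _, ?_⟩
    rw [mul_smul, mul_smul, inv_smul_smul, e]

theorem cc_mul {N : Subgroup (W G)} [N.Normal] {n : W G} (hn : n ∈ N) (p q : W G) (h : Hyp G) :
    cc N (n * p) (n * q) h = cc N p q h := by
  rw [← cc_smul n p q h]
  exact (cc_congr _ _ ⟨n, hn, rfl⟩).symm

/-- the parity subgroup -/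
def PN (N : Subgroup (W G)) [N.Normal] : Subgroup (W G) where
  carrier := {n | n ∈ N ∧ ∀ p h, Even (cc N p (n * p) h)}
  one_mem' := ⟨N.one_mem, fun p h => by simp [cc_self]⟩
  mul_mem' := by
    rintro a b ⟨ha, ha'⟩ ⟨hb, hb'⟩
    refine ⟨N.mul_mem ha hb, fun p h => ?_⟩
    rw [cc_trans N p (a * p), mul_assoc, cc_mul ha]
    exact iff_of_true (ha' p h) (hb' p h)
  inv_mem' := by
    rintro a ⟨ha, ha'⟩
    refine ⟨N.inv_mem ha, fun p h => ?_⟩
    rw [← cc_mul ha, cc_comm, mul_inv_cancel_left]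
    exact ha' p h

theorem mem_PN {N : Subgroup (W G)} [N.Normal] {n : W G} :
    n ∈ PN N ↔ n ∈ N ∧ ∀ p h, Even (cc N p (n * p) h) := Iff.rfl

theorem PN_le (N : Subgroup (W G)) [N.Normal] : PN N ≤ N := fun _ h => h.1

instance PN_normal (N : Subgroup (W G)) [hN : N.Normal] : (PN N).Normal := by
  refine ⟨fun n hn g => ⟨hN.conj_mem _ hn.1 g, fun p h => ?_⟩⟩
  have := hn.2 (g⁻¹ * p) (g⁻¹ • h)
  rw [← cc_smul g] at this
  simpa [mul_assoc] using this

instance PN_fi [Finite S] (N : Subgroup (W G)) [hN : N.Normal] [N.FiniteIndex] :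
    (PN N).FiniteIndex := by
  have := finite_cl N
  refine fi_of_map (fun g => ((g : W G ⧸ N),
    fun c : Quotient (clS N) => Even (cc N 1 g c.out))) fun g g' e => ?_
  have e1 : g⁻¹ * g' ∈ N := QuotientGroup.eq.1 (congrArg Prod.fst e)
  have e2 : ∀ h, Even (cc N 1 g h) ↔ Even (cc N 1 g' h) := by
    intro h
    have h1 := congrFun (congrArg Prod.snd e) (Quotient.mk (clS N) h)
    have h2 : ∃ v ∈ N, h = v • (Quotient.mk (clS N) h).out := clS_eq.1 (Quotient.out_eq _)
    rw [cc_congr _ _ h2, cc_congr _ _ h2]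
    exact iff_of_eq h1
  have e3 : ∀ h, Even (cc N 1 (g⁻¹ * g') h) := by
    intro h
    rw [← cc_smul g, mul_one, mul_inv_cancel_left, cc_trans N g 1, cc_comm]
    exact e2 _
  refine ⟨e1, fun p h => ?_⟩
  have e4 := cc_mul e1 1 p h
  rw [mul_one] at e4
  rw [cc_trans N p 1, cc_trans N 1 (g⁻¹ * g'), e4, cc_comm N p 1]
  have := e3 h
  tauto

/-- a class met exactly once on one side of a closed polygon is met on another side -/
theorem use {N : Subgroup (W G)} [N.Normal] {p q n : W G} {f : Hyp G} (hf : f ∈ sep p q)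
    (hu : ∀ v ∈ N, v • f ∈ sep p q → v • f = f) (hn : n ∈ PN N) (z : W G) :
    ∃ v ∈ N, v • f ∈ sep z p ∨ v • f ∈ sep q (n * z) := by
  classical
  have h1 : cc N p q f = 1 := by
    unfold cc
    rw [Finset.card_eq_one]
    refine ⟨f, ?_⟩
    ext k
    rw [Finset.mem_filter, Finset.mem_singleton]
    constructor
    · rintro ⟨hk, v, hv, rfl⟩
      exact hu v hv hk
    · rintro rfl
      exact ⟨hf, 1, N.one_mem, by simp⟩
  have h2 := hn.2 z f
  rw [cc_trans N z p, cc_trans N p q, h1] at h2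
  have key : ∀ a b, ¬ Even (cc N a b f) → ∃ v ∈ N, v • f ∈ sep a b := by
    intro a b h
    have : 0 < cc N a b f := (Nat.not_even_iff_odd.1 h).pos
    obtain ⟨k, hk⟩ := Finset.card_pos.1 this
    rw [Finset.mem_filter] at hk
    obtain ⟨hk, v, hv, rfl⟩ := hk
    exact ⟨v, hv, hk⟩
  by_cases e : Even (cc N z p f)
  · obtain ⟨v, hv, h⟩ := key q (n * z) (by
      intro x
      have := (h2.1 e).2 x
      simp at this)
    exact ⟨v, hv, Or.inr h⟩
  · obtain ⟨v, hv, h⟩ := key z p e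
    exact ⟨v, hv, Or.inl h⟩

/-- no accidental coincidence or crossing within range `R` -/
def F0 (N : Subgroup (W G)) (R : ℕ) : Prop :=
  ∀ (t u : Hyp G) (y y' n : W G), y ∈ car t → y' ∈ car u → d y y' ≤ R → n ∈ N →
    Stc t (n • u) → Stc t u

theorem F0.mono {N N' : Subgroup (W G)} {R R' : ℕ} (h : F0 N R) (hN : N' ≤ N) (hR : R' ≤ R) :
    F0 N' R' :=
  fun t u y y' n h1 h2 h3 h4 h5 => h t u y y' n h1 h2 (h3.trans hR) (hN h4) h5

theorem F0.eq {N : Subgroup (W G)} {R : ℕ} (h : F0 N R) {t u : Hyp G} {y y' n : W G}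
    (h1 : y ∈ car t) (h2 : y' ∈ car u) (h3 : d y y' ≤ R) (h4 : n ∈ N) (e : n • u = t) : u = t := by
  rcases h t u y y' n h1 h2 h3 h4 (Or.inl e) with c | c
  · exact c
  · have := c.adj
    rw [← e] at this
    exact absurd this G.irrefl

theorem F0.cross {N : Subgroup (W G)} {R : ℕ} (h : F0 N R) {t u : Hyp G} {y y' n : W G}
    (h1 : y ∈ car t) (h2 : y' ∈ car u) (h3 : d y y' ≤ R) (h4 : n ∈ N) (e : Cross t (n • u)) :
    Cross t u := by
  rcases h t u y y' n h1 h2 h3 h4 (Or.inr e) with c | c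
  · have := e.adj
    rw [c] at this
    exact absurd this G.irrefl
  · exact c

/-- classes are distinct on a short interval -/
theorem F0.eq_of_sep {N : Subgroup (W G)} {R : ℕ} (h : F0 N R) {p q n : W G} {t u : Hyp G}
    (hd : d p q ≤ R + 1) (ht : t ∈ sep p q) (hu : u ∈ sep p q) (hn : n ∈ N) (e : n • u = t) :
    u = t := by
  obtain ⟨x, hx, y, hy, -, -, hxy⟩ := exists_car_close ht hu
  exact h.eq hx hy (by omega) hn e

theorem F0_zero (N : Subgroup (W G)) : F0 N 0 := by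
  intro t u y y' n h1 h2 h3 _ h5
  have e : y = y' := eq_of_d_eq_zero (by omega)
  subst e
  exact stc_of_mem_st h1 h2 (by simpa using h5.mem_st)

/-- the polygon lemma -/
theorem poly {N : Subgroup (W G)} [N.Normal] {R : ℕ} (h : F0 N R) {t u r : Hyp G}
    {a b n x x' : W G} (hb : Br t u a b) (hd : d a b ≤ R + 1) (hn : n ∈ PN N) (hx : x ∈ car t)
    (hx' : x' ∈ car (n • u)) (hr : r ∈ sep a b) : ∃ v ∈ N, v • r ∈ sep x x' := by
  obtain ⟨y, hy, hc, hn1, hy'⟩ := exists_cross_pt hr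
  have d1 : d a y + 1 ≤ d a b := Finset.card_lt_card ⟨hy, fun c => hn1 (c hr)⟩
  have d2 : d (y * gen G r.1) b + 1 ≤ d a b := by
    have e1 := mem_I_iff_d.1 hy'
    have e2 : r ∈ sep a (y * gen G r.1) := by
      rw [mem_sep_trans a y, mem_sep_car_gen hc]; simp [hn1]
    have e3 : 0 < d a (y * gen G r.1) := Finset.card_pos.2 ⟨r, e2⟩
    omega
  have hz : n⁻¹ * x' ∈ car u := by
    rw [← smul_mem_car n]; simpa using hx'
  obtain ⟨v, hv, c⟩ := use (mem_sep_comm.1 hr)
    (fun v hv c => (h.eq_of_sep hd (mem_sep_comm.1 c) hr hv rfl).symm) hn (n⁻¹ * x')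
  rcases c with c | c
  · exact absurd (h u r b _ v hb.hb (mul_gen_mem_car hc (mem_st_self _))
      (by rw [d_comm]; omega) hv (stc_of_sep_car hz hb.hb c)) (hb.right r hr)
  · rw [mul_inv_cancel_left] at c
    refine ⟨v, hv, ?_⟩
    rcases Finset.mem_union.1 (sep_subset_union a x x' c) with c | c
    · exact absurd (h t r a y v hb.ha hc (by omega) hv (stc_of_sep_car hb.ha hx c)) (hb.left r hr)
    · exact c

theorem F0.succ {N : Subgroup (W G)} [N.Normal] {R : ℕ} (h : F0 N R) : F0 (PN N) (R + 1) := by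
  intro t u y y' n h1 h2 h3 h4 h5
  by_contra hc
  obtain ⟨a, b, hb⟩ := exists_br hc
  obtain ⟨x, hx, hx'⟩ := h5.exists_pt
  have hd := (hb.d_le h1 h2).trans h3
  by_cases e : a = b
  · subst e
    exact hc (stc_of_mem_st hb.ha hb.hb (by simpa using h5.mem_st))
  · obtain ⟨s, hs⟩ := exists_step e
    obtain ⟨v, -, c⟩ := poly h hb hd h4 hx hx' hs
    simp at c

theorem exists_F0 [Finite S] (G : SimpleGraph S) (R : ℕ) :
    ∃ N : Subgroup (W G), N.Normal ∧ N.FiniteIndex ∧ F0 N R := by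
  induction R with
  | zero => exact ⟨⊤, inferInstance, inferInstance, F0_zero _⟩
  | succ R ih =>
    obtain ⟨N, h1, h2, h3⟩ := ih
    exact ⟨PN N, inferInstance, inferInstance, h3.succ⟩

/-- short elements of the parity subgroup are trivial -/
theorem F0.inj {N : Subgroup (W G)} [N.Normal] {R : ℕ} (h : F0 N R) {g p : W G} (hg : g ∈ PN N)
    (hd : d p (g * p) ≤ R + 1) : g = 1 := by
  by_contra hne
  have : p ≠ g * p := fun e => hne (by simpa using e.symm)
  obtain ⟨s, hs⟩ := exists_step this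
  obtain ⟨v, -, c⟩ := use hs (fun v hv c => (h.eq_of_sep hd c hs hv rfl).symm) hg p
  simp at c

theorem exists_inj [Finite S] (G : SimpleGraph S) (R : ℕ) :
    ∃ N : Subgroup (W G), N.Normal ∧ N.FiniteIndex ∧
      ∀ g ∈ N, ∀ p, d p (g * p) ≤ R → g = 1 := by
  obtain ⟨N, h1, h2, h3⟩ := exists_F0 G R
  exact ⟨PN N, inferInstance, inferInstance, fun g hg p hd => h3.inj (p := p) hg (by omega)⟩

/-- strong separation survives at the level of classes (bridge form) -/
theorem lt_br {N : Subgroup (W G)} [N.Normal] {R : ℕ} (h : F0 N R) {t u k : Hyp G}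
    {a b n : W G} (hb : Br t u a b) (hd : d a b ≤ R + 1) (htb : TB0 t u) (hn : n ∈ PN N)
    (c1 : Stc k t) (c2 : Stc k (n • u)) : False := by
  obtain ⟨x, hx, hx1⟩ := c1.exists_pt
  obtain ⟨y, hy, hy1⟩ := c2.exists_pt
  have e1 : a⁻¹ * b ∈ Par G (st G k.1) := by
    rw [mem_Par_iff]
    intro r hr
    obtain ⟨v, -, c⟩ := poly h hb hd hn hx1 hy1 hr
    simpa using label_mem_st_of_car hx hy c
  have e2 : b ∈ car (hyp a k.1) := (mem_car_iff (mem_car_hyp a k.1)).2 e1
  refine htb.not_stc (hyp a k.1) ⟨stc_of_mem_st (mem_car_hyp _ _) hb.ha c1.mem_st,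
    stc_of_mem_st e2 hb.hb (by simpa using c2.mem_st)⟩

/-- strong separation survives at the level of classes -/
theorem lt_lvl {N : Subgroup (W G)} [N.Normal] {R : ℕ} (h : F0 N R) {t u k : Hyp G}
    {y y' n n' : W G} (hy : y ∈ car t) (hy' : y' ∈ car u) (hd : d y y' ≤ R + 1) (htb : TB0 t u)
    (hn : n ∈ PN N) (hn' : n' ∈ PN N) : ¬ (Stc k (n • t) ∧ Stc k (n' • u)) := by
  rintro ⟨c1, c2⟩
  obtain ⟨a, b, hb⟩ := exists_br_of_tb0 htb
  refine lt_br h (k := n⁻¹ • k) hb ((hb.d_le hy hy').trans hd) htb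
    ((PN N).mul_mem ((PN N).inv_mem hn) hn') ?_ ?_
  · rw [← stc_smul n]; simpa using c1
  · rw [← stc_smul n, mul_smul]; simpa using c2

theorem uq_aux {N : Subgroup (W G)} [N.Normal] {R : ℕ} (h : F0 N R) {t u : Hyp G}
    {a b a' b' n : W G} (hb : Br t u a b) (hb' : Br t (n • u) a' b') (hd : d a b ≤ R + 1)
    (hd' : d a' b' ≤ R + 1) (hn : n ∈ PN (PN N)) : a⁻¹ * b = a'⁻¹ * b' := by
  have h1 : F0 (PN N) R := h.mono (PN_le N) le_rfl
  refine eq_of_match (ρ := fun k k' => ∃ v ∈ PN N, k' = v • k) ?_ a a' ?_ ?_ ?_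
  · rintro k k' ⟨v, -, rfl⟩
    rfl
  · intro k hk
    obtain ⟨v, hv, c⟩ := poly h1 hb hd hn hb'.ha hb'.hb hk
    exact ⟨_, c, v, hv, rfl⟩
  · intro k' hk'
    obtain ⟨v, hv, c⟩ := poly h1 hb' hd' ((PN (PN N)).inv_mem hn) hb.ha
      (by simpa using hb.hb) hk'
    exact ⟨_, c, v⁻¹, (PN N).inv_mem hv, by simp⟩
  · rintro k hk j hj _ hk' _ hj' ⟨v, hv, rfl⟩ ⟨w, hw, rfl⟩
    refine ⟨⟨fun e => ?_, fun e => ?_⟩, fun l => ?_⟩
    · subst e
      refine h1.eq_of_sep hd' hj' hk' ((PN N).mul_mem hw ((PN N).inv_mem hv)) ?_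
      simp [mul_smul]
    · refine h1.eq_of_sep hd hj hk ((PN N).mul_mem ((PN N).inv_mem hw) hv) ?_
      rw [mul_smul, e]; simp
    · obtain ⟨g', hg1, hg2⟩ := exists_gate_car a' (v • k)
      obtain ⟨g, hg3, hg4⟩ := exists_gate_car a k
      obtain ⟨b1, i1⟩ := hb'.initial hk' hg1 hg2
      obtain ⟨-, i2⟩ := hb.initial hk hg3 hg4
      have d1 : d a' g' ≤ R + 1 := (Finset.card_le_card i1).trans hd'
      obtain ⟨m, hm, c⟩ := poly h b1 d1 ((PN N).inv_mem hv) hb.ha (by simpa using hg3)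
        (l.mem_of_car hg1)
      have e : j = m • w • j :=
        h.eq_of_sep hd (i2 c) hj (N.mul_mem hm (PN_le N hw)) (by rw [mul_smul])
      rw [← e] at c
      exact lt_of_gate hg4 c

/-- pairs in range with the same classes have the same bridge word -/
theorem uq {N : Subgroup (W G)} [N.Normal] {R : ℕ} (h : F0 N R) {t u : Hyp G}
    {a b a' b' n n' : W G} (hb : Br t u a b) (hb' : Br (n • t) (n' • u) a' b') (hd : d a b ≤ R + 1)
    (hd' : d a' b' ≤ R + 1) (hn : n ∈ PN (PN N)) (hn' : n' ∈ PN (PN N)) :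
    a⁻¹ * b = a'⁻¹ * b' := by
  have h1 := hb'.smul n⁻¹
  rw [inv_smul_smul, ← mul_smul] at h1
  have := uq_aux h hb h1 hd (by rw [d_smul]; exact hd')
    ((PN (PN N)).mul_mem ((PN (PN N)).inv_mem hn) hn')
  rw [this]
  simp [mul_assoc]

/-- pairs in range with the same classes are equivalent -/
theorem uq_pair {N : Subgroup (W G)} [N.Normal] {R : ℕ} (h : F0 N R) {t u : Hyp G}
    {y z y' z' n n' : W G} (hne : ¬ Stc t u) (hy : y ∈ car t) (hz : z ∈ car u)
    (hy' : y' ∈ car (n • t)) (hz' : z' ∈ car (n' • u)) (hd : d y z ≤ R) (hd' : d y' z' ≤ R)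
    (hn : n ∈ PN (PN N)) (hn' : n' ∈ PN (PN N)) :
    ∃ c : W G, c • t = n • t ∧ c • u = n' • u := by
  have hne' : ¬ Stc (n • t) (n' • u) := by
    intro c
    refine hne (h t u y z (n⁻¹ * n') hy hz hd
      (PN_le N (PN_le _ ((PN (PN N)).mul_mem ((PN (PN N)).inv_mem hn) hn'))) ?_)
    rw [← stc_smul n, mul_smul]
    simpa using c
  obtain ⟨a, b, hb⟩ := exists_br hne
  obtain ⟨a', b', hb'⟩ := exists_br hne'
  have e := uq h hb hb' (by have := hb.d_le hy hz; omega) (by have := hb'.d_le hy' hz'; omega) hn hn'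
  refine ⟨a' * a⁻¹, ?_, ?_⟩
  · refine eq_of_mem_car_of_label (y := a') ?_ hb'.ha rfl
    have := (smul_mem_car (a' * a⁻¹)).2 hb.ha
    simpa using this
  · refine eq_of_mem_car_of_label (y := b') ?_ hb'.hb rfl
    have := (smul_mem_car (a' * a⁻¹)).2 hb.hb
    rwa [mul_assoc, e, mul_inv_cancel_left] at this

end Pool.Agent.MP_c34dea_an.H6
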