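import Pool.Agent.MP_c34dea_an.H6.Block1

set_option autoImplicit false

open scoped Pointwise

namespace Pool.Agent.MP_c34dea_an.H6

open H66 H23

variable {S : Type} {G : SimpleGraph S} {S' : Type} {G' : SimpleGraph S'}

/-- a long chain between two hyperplanes -/
def Lng (R : Hyp G → Hyp G → Prop) (c : ℕ) (t u : Hyp G) : Prop :=
  ∃ B : Finset (Hyp G), B.card = c ∧ (B : Set (Hyp G)).Pairwise R ∧ ∀ r ∈ B, r ∈ Btw t u

/-- the new relation -/
def Rn (R E : Hyp G → Hyp G → Prop) (L : Lab G G') (ρ c : ℕ) (T U : Hyp G') : Prop :=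
  ∃ (g : W G') (t u : Hyp G) (a b : W G), Br t u a b ∧ d a b ≤ ρ ∧ Sp E a b ∧ Lng R c t u ∧
    g • L.hmap t ∈ Btw T U ∧ g • L.hmap u ∈ Btw T U

variable {R E : Hyp G → Hyp G → Prop} {𝒮 : Set (Set (Hyp G))} {ρ c : ℕ} {L : Lab G G'}
  {N : Subgroup (W G)}

theorem Lng.smul (hR : Adm R) {t u : Hyp G} (h : Lng R c t u) (g : W G) :
    Lng R c (g • t) (g • u) := by
  obtain ⟨B, h1, h2, h3⟩ := h
  refine ⟨B.image (fun r => g • r),
    by rw [Finset.card_image_of_injective _ (MulAction.injective g), h1], ?_, ?_⟩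
  · intro x hx z hz hne
    obtain ⟨x, hx', rfl⟩ := Finset.mem_image.1 hx
    obtain ⟨z, hz', rfl⟩ := Finset.mem_image.1 hz
    exact hR.inv g _ _ (h2 hx' hz' fun e => hne (by rw [e]))
  · intro r hr
    obtain ⟨x, hx, rfl⟩ := Finset.mem_image.1 hr
    exact smul_mem_Btw g (h3 x hx)

theorem Lng.symm {t u : Hyp G} (h : Lng R c t u) : Lng R c u t := by
  obtain ⟨B, h1, h2, h3⟩ := h
  exact ⟨B, h1, h2, fun r hr => by rw [Btw_comm]; exact h3 r hr⟩

theorem adm_Rn (h : Lev 𝒮 E ρ L N) : Adm (Rn R E L ρ c) where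
  symm := by
    rintro T U ⟨g, t, u, a, b, h1, h2, h3, h4, h5, h6⟩
    exact ⟨g, t, u, a, b, h1, h2, h3, h4, by rwa [Btw_comm], by rwa [Btw_comm]⟩
  inv := by
    rintro g' T U ⟨g, t, u, a, b, h1, h2, h3, h4, h5, h6⟩
    exact ⟨g' * g, t, u, a, b, h1, h2, h3, h4, by rw [mul_smul]; exact smul_mem_Btw g' h5,
      by rw [mul_smul]; exact smul_mem_Btw g' h6⟩
  tb := by
    rintro T U ⟨g, t, u, a, b, h1, h2, h3, -, h5, h6⟩
    exact adm_tb0.up _ _ _ _ (H23.tb0_smul g (h.tb h1 h2 h3)) h5 h6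
  up := by
    rintro T U T' U' ⟨g, t, u, a, b, h1, h2, h3, h4, h5, h6⟩ b1 b2
    exact ⟨g, t, u, a, b, h1, h2, h3, h4, Btw_subset b1 b2 h5, Btw_subset b1 b2 h6⟩

/-- pulling a related pair of descending hyperplanes back -/
theorem Lev.pull (h : Lev 𝒮 E ρ L N) (F : Fam 𝒮 E) (hR : Adm R) {y y' : W G} {o : W G'}
    (hd : d y y' ≤ ρ) {t0 t1 : Hyp G} (h0 : t0 ∈ sep y y') (h1 : t1 ∈ sep y y')
    (d0 : L.hmap t0 ∈ sep (L.phi y) o) (d1 : L.hmap t1 ∈ sep (L.phi y) o)
    (hl : Lt (L.phi y) (L.hmap t0) (L.hmap t1)) (hr : Rn R E L ρ c (L.hmap t0) (L.hmap t1)) :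
    ∃ p q, Lq y t0 p ∧ Lt y p q ∧ Lq y q t1 ∧ L.hmap q ∈ sep (L.phi y) o ∧ SpAt E y p q ∧
      Lng R c p q := by
  obtain ⟨g, t', u', a', b', k1, k2, k3, k4, k5, k6⟩ := hr
  have back : ∀ T ∈ Btw (L.hmap t0) (L.hmap t1), ∃ t ∈ sep y y', L.hmap t = T ∧ Lq y t0 t ∧
      Lq y t t1 ∧ L.hmap t ∈ sep (L.phi y) o := by
    intro T hT
    have m := hT _ _ (h.mem hd h0) (h.mem hd h1)
    rw [h.sep_eq hd] at m
    obtain ⟨t, ht, rfl⟩ := Finset.mem_image.1 m
    have q := lq_of_Btw hl hT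
    exact ⟨t, ht, rfl, h.lq_of_map hd h0 ht q.1, h.lq_of_map hd ht h1 q.2, hT _ _ d0 d1⟩
  obtain ⟨t, t1', t2, t3, t4, t5⟩ := back _ k5
  obtain ⟨u, u1, u2, u3, u4, u5⟩ := back _ k6
  have tb : H23.TB0 (L.hmap t) (L.hmap u) := by
    rw [t2, u2]; exact H23.tb0_smul g (h.tb k1 k2 k3)
  have hn : ¬ Stc t u := fun x => tb.not_stt (h.stc x)
  obtain ⟨a, b, hb⟩ := exists_br hn
  obtain ⟨x, hx, z, hz, -, -, hxz⟩ := exists_car_close t1' u1
  have e1 : L.lab t' = L.lab t := (congrArg Sigma.fst t2).symm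
  have e2 : L.lab u' = L.lab u := (congrArg Sigma.fst u2).symm
  have e := h.uq t' u' t u a' b' a b k1 hb k2 (by have := hb.d_le hx hz; omega) e1 e2
  have s1 : Sp E a b := k3.of_eq F e
  have s2 : Lng R c t u := by
    have := k4.smul hR (a * a'⁻¹)
    have c1 : (a * a'⁻¹) • t' = t := by
      refine eq_of_mem_car_of_label (y := a) ?_ hb.ha (h.typ t' t e1)
      simpa using (smul_mem_car (a * a'⁻¹)).2 k1.ha
    have c2 : (a * a'⁻¹) • u' = u := by
      refine eq_of_mem_car_of_label (y := b) ?_ hb.hb (h.typ u' u e2)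
      have := (smul_mem_car (a * a'⁻¹)).2 k1.hb
      rwa [mul_assoc, e, mul_inv_cancel_left] at this
    rwa [c1, c2] at this
  rcases lt_or_lt t1' u1 hn with l | l
  · exact ⟨t, u, t3, l, u4, u5, hb.spAt_of_sp l s1, s2⟩
  · exact ⟨u, t, u3, l, t4, t5, hb.symm.spAt_of_sp l (s1.symm F), s2.symm⟩

/-- the descending part -/
theorem Lev.desc (h : Lev 𝒮 E ρ L N) (F : Fam 𝒮 E) (hR : Adm R) (z : Hyp G) {y y' o' : W G}
    {o : W G'} (hd : d y y' ≤ ρ)
    (hs : ∀ e e' D : Hyp G, D ∈ sep y y' → e ∉ sep y o' → Lt y e e' →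
      H6.TB0 e e' → SpAt E y e' D → L.hmap D ∉ sep (L.phi y) o) :
    c * ht (Rn R E L ρ (c + 1)) (sep (L.phi y) (L.phi y') ∩ sep (L.phi y) o) ≤
      ht R (sep y y' ∩ sep y o') + 3 * c := by
  obtain ⟨B, b1, b2, b3⟩ := exists_ht (Rn R E L ρ (c + 1))
    (sep (L.phi y) (L.phi y') ∩ sep (L.phi y) o)
  rw [← b3]
  have hA : Adm (Rn R E L ρ (c + 1)) := adm_Rn h
  have bm : ∀ T ∈ B, T ∈ sep (L.phi y) (L.phi y') ∧ T ∈ sep (L.phi y) o :=
    fun T hT => Finset.mem_inter.1 (b1 hT)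
  obtain ⟨T, f1, f2⟩ := exists_enum (L.phi y) (L.hmap z) _ B rfl fun a ha b hb hne =>
    lt_or_lt (bm a ha).1 (bm b hb).1 (hA.tb _ _ (b2 ha hb hne)).not_stt
  have hpre : ∀ i, ∃ t, i < B.card → t ∈ sep y y' ∧ L.hmap t = T i := by
    intro i
    by_cases hi : i < B.card
    · have m := (bm _ (f1 i hi)).1
      rw [h.sep_eq hd] at m
      obtain ⟨t, ht, e⟩ := Finset.mem_image.1 m
      exact ⟨t, fun _ => ⟨ht, e⟩⟩
    · exact ⟨z, fun x => absurd x hi⟩
  choose t ht using hpre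
  have hpq : ∀ i, ∃ p q, i + 1 < B.card → Lq y (t i) p ∧ Lt y p q ∧ Lq y q (t (i + 1)) ∧
      L.hmap q ∈ sep (L.phi y) o ∧ SpAt E y p q ∧ Lng R (c + 1) p q := by
    intro i
    by_cases hi : i + 1 < B.card
    · have a0 := ht i (by omega)
      have a1 := ht (i + 1) hi
      have l := f2 i (i + 1) (by omega) hi
      obtain ⟨p, q, hpq⟩ := h.pull F hR hd a0.1 a1.1 (by rw [a0.2]; exact (bm _ (f1 i (by omega))).2)
        (by rw [a1.2]; exact (bm _ (f1 _ hi)).2) (by rw [a0.2, a1.2]; exact l)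
        (by rw [a0.2, a1.2]; exact b2 (f1 i (by omega)) (f1 _ hi) l.ne)
      exact ⟨p, q, fun _ => hpq⟩
    · exact ⟨z, z, fun x => absurd x hi⟩
  choose p q hpq using hpq
  have qp : ∀ i, i + 2 < B.card → Lq y (q i) (p (i + 1)) := fun i hi =>
    (hpq i (by omega)).2.2.1.trans (hpq (i + 1) hi).1
  have qm : ∀ i, i + 1 < B.card → q i ∈ sep y y' := fun i hi =>
    (hpq i hi).2.2.1.mem (ht _ hi).1
  have inO : ∀ i, i + 3 < B.card → ∀ r, Lq y r (q i) → r ∈ sep y o' := by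
    intro i hi r hr
    by_contra hn
    obtain ⟨g1, g2, g3, g4, l0, n1, n2, n3, l4⟩ := (hpq (i + 1) (by omega)).2.2.2.2.1
    obtain ⟨k1, k2, k3, k4, m0, p1, p2, p3, m4⟩ := (hpq (i + 2) hi).2.2.2.2.1
    have r1 : Lt y r g1 := (hr.trans (qp i (by omega))).lt l0
    have r2 : Lt y g2 (p (i + 2)) := lt_lq ((n2.1.trans n3.1).trans l4) (qp (i + 1) hi)
    exact hs r g2 (q (i + 2)) (qm _ hi) hn (r1.trans n1.1) (n1.2.1.of_right r1 n1.1)
      ⟨k1, k2, k3, k4, r2.trans m0, p1, p2, p3, m4⟩ (hpq (i + 2) hi).2.2.2.1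
  have main : ∀ j, j + 2 < B.card → ∃ C : Finset (Hyp G), C ⊆ sep y y' ∩ sep y o' ∧
      (C : Set (Hyp G)).Pairwise R ∧ c * j ≤ C.card ∧
      ∀ x ∈ C, ∃ M, R x M ∧ Lt y x M ∧ Lq y M (p j) := by
    intro j
    induction j with
    | zero => exact fun _ => ⟨∅, by simp, by simp, by simp, by simp⟩
    | succ j ih =>
      intro hj
      obtain ⟨C, c1, c2, c3, c4⟩ := ih (by omega)
      obtain ⟨-, lpq, -, -, -, A, a1, a2, a3⟩ := hpq j (by omega)
      have aq : ∀ r ∈ A, Lq y (p j) r ∧ Lq y r (q j) := fun r hr => lq_of_Btw lpq (a3 r hr)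
      have am : ∀ r ∈ A, r ∈ sep y y' := fun r hr => (aq r hr).2.mem (qm j (by omega))
      obtain ⟨M, hM, hmax⟩ := exists_lt_max y (Finset.card_pos.1 (by omega : 0 < A.card))
      have cr : ∀ x ∈ C, ∀ r ∈ A, Lt y x r ∧ R x r := by
        intro x hx r hr
        obtain ⟨M', m1, m2, m3⟩ := c4 x hx
        have m4 := m3.trans (aq r hr).1
        exact ⟨lt_lq m2 m4, hR.up _ _ _ _ m1 (left_mem_Btw _ _) (mem_Btw_of_le (Or.inr m2) m4)⟩
      have hdis : Disjoint C (A.erase M) := Finset.disjoint_left.2 fun x hx hx' =>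
        (cr x hx x (Finset.mem_of_mem_erase hx')).1.ne rfl
      refine ⟨C ∪ A.erase M, Finset.union_subset c1 fun r hr => ?_, ?_, ?_, ?_⟩
      · have hr' := Finset.mem_of_mem_erase hr
        exact Finset.mem_inter.2 ⟨am r hr', inO j (by omega) r (aq r hr').2⟩
      · intro x hx w hw hne
        simp only [Finset.coe_union, Set.mem_union, Finset.mem_coe] at hx hw
        rcases hx with hx | hx <;> rcases hw with hw | hw
        · exact c2 hx hw hne
        · exact (cr x hx w (Finset.mem_of_mem_erase hw)).2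
        · exact hR.symm _ _ (cr w hw x (Finset.mem_of_mem_erase hx)).2
        · exact a2 (Finset.mem_of_mem_erase hx) (Finset.mem_of_mem_erase hw) hne
      · rw [Finset.card_union_of_disjoint hdis, Finset.card_erase_of_mem hM, a1, Nat.mul_succ]
        omega
      · intro x hx
        rcases Finset.mem_union.1 hx with hx | hx
        · obtain ⟨M', m1, m2, m3⟩ := c4 x hx
          exact ⟨M', m1, m2, (m3.trans (Or.inr lpq)).trans (qp j (by omega))⟩
        · have hx' := Finset.mem_erase.1 hx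
          have r1 := a2 hx'.2 hM hx'.1
          exact ⟨M, r1, (lt_or_lt (am _ hx'.2) (am _ hM) (hR.tb _ _ r1).not_stt).resolve_right
            (hmax _ hx'.2), (aq M hM).2.trans (qp j (by omega))⟩
  by_cases hk : B.card ≤ 3
  · have : c * B.card ≤ c * 3 := Nat.mul_le_mul_left _ hk
    omega
  · obtain ⟨C, c1, c2, c3, -⟩ := main (B.card - 3) (by omega)
    have h1 := le_ht c1 c2
    have h2 : c * B.card = c * (B.card - 3) + c * 3 := by
      rw [← Nat.mul_add]; congr 1; omega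
    omega

/-- the ascending part -/
theorem Lev.asc {a m : ℕ} (ha : 1 ≤ a) (h : Lev 𝒮 E ρ L N) (hR : Adm R) (z : Hyp G)
    {y y' o' : W G} {o : W G'} (hd : d y y' ≤ m) (hm : m ≤ ρ)
    (hs : ∀ e e' D : Hyp G, D ∈ sep y y' → e ∉ sep y o' → Lt y e e' →
      H6.TB0 e e' → SpAt E y e' D → L.hmap D ∉ sep (L.phi y) o) :
    ∃ Js : List (Finset (Hyp G)), ItvList R E o' y y' Js ∧ Js.length * a ≤ m ∧
      ht R (sep y y' \ sep y o') ≤ (Js.map Finset.card).sum + 10 * a +
        10 * a * ht (Rn R E L ρ (10 * a + 1)) (sep (L.phi y) (L.phi y') \ sep (L.phi y) o) := by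
  obtain ⟨C, c1, c2, c3⟩ := exists_ht R (sep y y' \ sep y o')
  rw [← c3]
  have cm : ∀ r ∈ C, r ∈ sep y y' ∧ r ∉ sep y o' := fun r hr => Finset.mem_sdiff.1 (c1 hr)
  obtain ⟨f, f1, f2⟩ := exists_enum y z _ C rfl fun a ha b hb hne =>
    lt_or_lt (cm a ha).1 (cm b hb).1 (hR.tb _ _ (c2 ha hb hne)).not_stt
  set n := C.card with hn
  have hnm : n ≤ m := (Finset.card_le_card (c1.trans Finset.sdiff_subset)).trans hd
  have fq : ∀ i j, i ≤ j → j < n → Lq y (f i) (f j) := fun i j hij hj => by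
    rcases hij.eq_or_lt with rfl | hij
    · exact Or.inl rfl
    · exact Or.inr (f2 i j hij hj)
  have fR : ∀ i j, i < j → j < n → R (f i) (f j) := fun i j hij hj =>
    c2 (f1 i (by omega)) (f1 j hj) (f2 i j hij hj).ne
  have finj : ∀ i j, i < n → j < n → f i = f j → i = j := fun i j hi hj e => by
    rcases lt_trichotomy i j with c | c | c
    · exact absurd e (f2 i j c hj).ne
    · exact c
    · exact absurd e.symm (f2 j i c hi).ne
  have fb : ∀ i j, i < j → j < n → Lt o' (f i) (f j) := fun i j hij hj =>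
    (f2 i j hij hj).base (cm _ (f1 i (by omega))).2 (cm _ (f1 j hj)).2
  obtain ⟨Is, n', κ, a1, a2, a3, a4, a5⟩ :=
    idx_split (fun i j => E (f i) (f j)) a n ha n 0 (by omega)
  have hcard : ∀ J ∈ Is, ((Finset.Icc J.1 J.2).image f).card = J.2 + 1 - J.1 := by
    intro J hJ
    have := a1 J hJ
    rw [Finset.card_image_of_injOn, Nat.card_Icc]
    intro i hi j hj e
    simp only [Finset.coe_Icc, Set.mem_Icc] at hi hj
    exact finj i j (by omega) (by omega) e
  have hsum : ((Is.map fun J => (Finset.Icc J.1 J.2).image f).map Finset.card).sum =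
      (Is.map (fun J => J.2 + 1 - J.1)).sum := by
    rw [List.map_map]
    exact congrArg List.sum (List.map_congr_left fun J hJ => hcard J hJ)
  refine ⟨Is.map fun J => (Finset.Icc J.1 J.2).image f, ⟨?_, ?_⟩, ?_, ?_⟩
  · intro J' hJ'
    obtain ⟨J, hJ, rfl⟩ := List.mem_map.1 hJ'
    have b := a1 J hJ
    have sub : ∀ r ∈ (Finset.Icc J.1 J.2).image f, ∃ i, J.1 ≤ i ∧ i ≤ J.2 ∧ f i = r := by
      intro r hr
      obtain ⟨i, hi, e⟩ := Finset.mem_image.1 hr
      exact ⟨i, (Finset.mem_Icc.1 hi).1, (Finset.mem_Icc.1 hi).2, e⟩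
    refine ⟨c2.mono fun r hr => ?_, fun r hr => ?_, f J.1, ?_, f J.2, ?_, b.2.2.2, fun r hr => ?_⟩
    · obtain ⟨i, i1, i2, rfl⟩ := sub r hr
      exact f1 i (by omega)
    · obtain ⟨i, i1, i2, rfl⟩ := sub r hr
      have := cm _ (f1 i (by omega))
      rw [mem_sep_trans o' y y', sep_comm o' y]
      tauto
    · exact Finset.mem_image_of_mem _ (Finset.mem_Icc.2 ⟨le_rfl, by omega⟩)
    · exact Finset.mem_image_of_mem _ (Finset.mem_Icc.2 ⟨by omega, le_rfl⟩)
    · obtain ⟨i, i1, i2, rfl⟩ := sub r hr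
      constructor
      · rcases i1.eq_or_lt with e | i1
        · exact Or.inl (by rw [e])
        · exact Or.inr (fb _ _ i1 (by omega))
      · rcases i2.eq_or_lt with e | i2
        · exact Or.inl (by rw [e])
        · exact Or.inr (fb _ _ i2 b.2.2.1)
  · rw [List.pairwise_map]
    refine a2.imp_of_mem fun {J J'} hJ hJ' hlt r hr r' hr' => ?_
    obtain ⟨i, hi, rfl⟩ := Finset.mem_image.1 hr
    obtain ⟨j, hj, rfl⟩ := Finset.mem_image.1 hr'
    have := a1 J' hJ'
    rw [Finset.mem_Icc] at hi hj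
    exact fb i j (by omega) (by omega)
  · rw [List.length_map]
    have : Is.length * a ≤ (Is.map (fun J => J.2 + 1 - J.1)).sum := by
      have := List.card_nsmul_le_sum (Is.map (fun J => J.2 + 1 - J.1)) a (by
        intro x hx
        obtain ⟨J, hJ, rfl⟩ := List.mem_map.1 hx
        have := a1 J hJ
        omega)
      simpa using this
    omega
  · rw [hsum]
    have gl : ∀ i j, i < j → j < n' → Lt y (f (κ i)) (f (κ j)) := fun i j hij hj =>
      f2 _ _ (a5 i j hij hj) (a4 j hj).2.1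
    have gR : ∀ i j, i < j → j < n' → R (f (κ i)) (f (κ j)) := fun i j hij hj =>
      fR _ _ (a5 i j hij hj) (a4 j hj).2.1
    have gm : ∀ i, i < n' → f (κ i) ∈ sep y y' ∧ f (κ i) ∉ sep y o' := fun i hi =>
      cm _ (f1 _ (a4 i hi).2.1)
    have gN : ∀ i, i + a < n' → Nx E y (f (κ i)) (f (κ (i + a))) := fun i hi =>
      ⟨gl _ _ (by omega) hi, hR.tb _ _ (gR _ _ (by omega) hi),
        (a4 i (by omega)).2.2 _ (by have := add_le_of_mono a5 i a hi; omega) (a4 _ hi).2.1⟩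
    have gS : ∀ i j, i + 5 * a ≤ j → j < n' → SpAt E y (f (κ i)) (f (κ j)) := fun i j hij hj =>
      ⟨_, _, _, _, gl i (i + a) (by omega) (by omega), gN _ (by omega), gN _ (by omega),
        gN _ (by omega), gl _ _ (by omega) hj⟩
    have gn : ∀ i j, i + 10 * a ≤ j → j < n' →
        Rn R E L ρ (10 * a + 1) (L.hmap (f (κ i))) (L.hmap (f (κ j))) := by
      intro i j hij hj
      have l := gl i j (by omega) hj
      obtain ⟨x, x', hb⟩ := exists_br_of_lt l
      obtain ⟨w, hw, w', hw', -, -, hww⟩ := exists_car_close (gm i (by omega)).1 (gm j hj).1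
      refine ⟨1, _, _, x, x', hb, by have := hb.d_le hw hw'; omega,
        hb.sp_of_spAt (gS i j (by omega) hj),
        ⟨(Finset.Icc i (i + 10 * a)).image (fun k => f (κ k)), ?_, ?_, ?_⟩,
        by rw [one_smul]; exact left_mem_Btw _ _, by rw [one_smul]; exact right_mem_Btw _ _⟩
      · rw [Finset.card_image_of_injOn, Nat.card_Icc]
        · omega
        · intro k hk k' hk' e
          simp only [Finset.coe_Icc, Set.mem_Icc] at hk hk'
          rcases lt_trichotomy k k' with c | c | c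
          · exact absurd e (gl k k' c (by omega)).ne
          · exact c
          · exact absurd e.symm (gl k' k c (by omega)).ne
      · refine c2.mono fun r hr => ?_
        obtain ⟨k, hk, rfl⟩ := Finset.mem_image.1 hr
        rw [Finset.mem_Icc] at hk
        exact f1 _ (a4 k (by omega)).2.1
      · intro r hr
        obtain ⟨k, hk, rfl⟩ := Finset.mem_image.1 hr
        rw [Finset.mem_Icc] at hk
        refine mem_Btw_of_le (p := y) ?_ ?_
        · rcases hk.1.eq_or_lt with e | c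
          · exact Or.inl (by rw [e])
          · exact Or.inr (gl _ _ c (by omega))
        · rcases (show k ≤ j by omega).eq_or_lt with e | c
          · exact Or.inl (by rw [e])
          · exact Or.inr (gl _ _ c hj)
    obtain ⟨k, hk1, hk2⟩ : ∃ k, 10 * a * k ≤ n' - 1 ∧ n' - 1 < 10 * a * (k + 1) :=
      ⟨(n' - 1) / (10 * a), Nat.mul_div_le _ _, Nat.lt_mul_div_succ _ (by omega)⟩
    have hA : Adm (Rn R E L ρ (10 * a + 1)) := adm_Rn h
    have lt' : ∀ i, 1 ≤ i → i ≤ k → 10 * a ≤ 10 * a * i ∧ 10 * a * i < n' := by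
      intro i h1 h2
      have e1 : 10 * a * 1 ≤ 10 * a * i := Nat.mul_le_mul_left _ h1
      have e2 : 10 * a * i ≤ 10 * a * k := Nat.mul_le_mul_left _ h2
      omega
    have rel : ∀ i j, i < j → j ≤ k → Rn R E L ρ (10 * a + 1) (L.hmap (f (κ (10 * a * i))))
        (L.hmap (f (κ (10 * a * j)))) := by
      intro i j hij hj
      refine gn _ _ ?_ (lt' j (by omega) hj).2
      have : 10 * a * (i + 1) ≤ 10 * a * j := Nat.mul_le_mul_left _ hij
      rw [Nat.mul_succ] at this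
      exact this
    have key : k ≤ ht (Rn R E L ρ (10 * a + 1)) (sep (L.phi y) (L.phi y') \ sep (L.phi y) o) := by
      have hc : ((Finset.Icc 1 k).image fun i => L.hmap (f (κ (10 * a * i)))).card = k := by
        rw [Finset.card_image_of_injOn, Nat.card_Icc]
        · omega
        · intro i hi j hj e
          simp only [Finset.coe_Icc, Set.mem_Icc] at hi hj
          rcases lt_trichotomy i j with c | c | c
          · exact absurd e (hA.tb _ _ (rel i j c hj.2)).1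
          · exact c
          · exact absurd e.symm (hA.tb _ _ (rel j i c hi.2)).1
      rw [← hc]
      refine le_ht (fun T hT => ?_) ?_
      · obtain ⟨i, hi, rfl⟩ := Finset.mem_image.1 hT
        rw [Finset.mem_Icc] at hi
        have b := lt' i hi.1 hi.2
        refine Finset.mem_sdiff.2 ⟨h.mem (hd.trans hm) (gm _ b.2).1, ?_⟩
        exact hs (f (κ 0)) (f (κ 1)) _ (gm _ b.2).1 (gm 0 (by omega)).2
          (gl 0 1 (by omega) (by omega)) (hR.tb _ _ (gR 0 1 (by omega) (by omega)))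
          (gS 1 _ (by omega) b.2)
      · intro T hT U hU hne
        obtain ⟨i, hi, rfl⟩ := Finset.mem_image.1 hT
        obtain ⟨j, hj, rfl⟩ := Finset.mem_image.1 hU
        rw [Finset.mem_Icc] at hi hj
        rcases lt_trichotomy i j with c | c | c
        · exact rel i j c hj.2
        · exact absurd (by rw [c]) hne
        · exact hA.symm _ _ (rel j i c hi.2)
    have := Nat.mul_le_mul_left (10 * a) key
    rw [Nat.mul_succ] at hk2
    omega

theorem D_up {R : Hyp G → Hyp G → Prop} (o y y' : W G) :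
    D R o y' ≤ ht R (sep o y ∩ sep o y') + ht R (sep y y' \ sep y o) := by
  refine (ht_mono fun r hr => ?_).trans (ht_union_le _ _)
  rw [Finset.mem_union, Finset.mem_inter, Finset.mem_sdiff, mem_sep_trans y o y', sep_comm y o]
  tauto

theorem D_low {R : Hyp G → Hyp G → Prop} (hR : Adm R) (o y y' : W G) :
    ht R (sep o y ∩ sep o y') + ht R (sep y y' \ sep y o) ≤ D R o y' + 2 := by
  have key : ∀ b ∈ sep y y' \ sep y o, b ∉ sep o y ∧ b ∈ sep o y' := by
    intro b hb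
    rw [Finset.mem_sdiff, mem_sep_trans y o y', sep_comm y o] at hb
    tauto
  refine (ht_superadd hR (o := o) (y := y) (y' := y') (fun a ha => Finset.mem_inter.1 ha)
    key).trans (Nat.add_le_add_right (ht_mono fun r hr => ?_) 2)
  rcases Finset.mem_union.1 hr with hr | hr
  · exact (Finset.mem_inter.1 hr).2
  · exact (key r hr).2

theorem sdiff_eq_inter (o y y' : W G) : sep y' y \ sep y' o = sep y y' ∩ sep y o := by
  ext r
  rw [Finset.mem_sdiff, Finset.mem_inter, mem_sep_trans y' y o, sep_comm y' y]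
  tauto

theorem block : BlockStmt := by
  intro S _ G R 𝒮 E hR h1 h2 h3 h4 h5 h6 a m ha N₀ hN₀
  have F : Fam 𝒮 E := by
    refine ⟨h1, fun A hA t ht u hu => ?_, h4, h3, fun p a b c l1 l2 e =>
      h5 _ _ _ _ e (left_mem_Btw _ _) (mem_Btw_of_lt l1 l2), fun ρ => ?_⟩
    · by_cases c : Stc t u
      · obtain ⟨x, x1, x2⟩ := c.exists_pt
        exact ⟨x, x1, x, x2, by simp⟩
      · obtain ⟨x, x', hb⟩ := exists_br c
        refine ⟨x, hb.ha, x', hb.hb, fun k hk => h2 A hA t ht u hu ?_⟩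
        obtain ⟨l1, l2⟩ := hb.lt_of_mem hb.lt_base hk
        exact mem_Btw_of_lt l1 l2
    · obtain ⟨N, hN, hf⟩ := h6 ρ
      exact ⟨N, hN.1, hN.2, fun t u a b n hb hd hn A hA ht hu =>
        hf t u ⟨a, hb.ha, b, hb.hb, hd⟩ hb.ne hb.nc A hA n hn ht hu⟩
  have := hN₀.1
  have := hN₀.2
  obtain ⟨S', hS', G', L, N, hle, h⟩ := exists_lev F (2 * m) N₀
  have hA : Adm (Rn R E L (2 * m) (10 * a + 1)) := adm_Rn h
  refine ⟨N, ⟨h.normal, h.fi⟩, hle, S', hS', G', L, Rn R E L (2 * m) (10 * a + 1), hA, h.inv,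
    ?_, fun o y => ?_⟩
  · rintro T hT _ ⟨t, ht, rfl⟩ _ ⟨u, hu, rfl⟩
    exact h.clq T hT t ht u hu
  obtain ⟨o', ho'⟩ := h.struct le_rfl o y
  refine ⟨o', fun y' hd => ?_⟩
  by_cases e : y = y'
  · subst e
    exact ⟨[], ⟨by simp, by simp⟩, by simp, by simp⟩
  obtain ⟨s, -⟩ := exists_step e
  obtain ⟨Js, j1, j2, j3⟩ := h.asc ha hR (hyp y s) hd (by omega) (ho' y' hd)
  refine ⟨Js, j1, j2, ?_⟩
  have d1 := h.desc (c := 10 * a) F hR (hyp y s) (by omega) (ho' y' hd)
  have u1 := D_up (R := Rn R E L (2 * m) (10 * a + 1)) o (L.phi y') (L.phi y)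
  have u2 := D_low hA o (L.phi y) (L.phi y')
  have u3 := D_up (R := R) o' y y'
  have u4 := D_low hR o' y' y
  rw [sdiff_eq_inter, Finset.inter_comm] at u1 u4
  have v1 := Nat.mul_le_mul_left (10 * a) u1
  have v2 := Nat.mul_le_mul_left (10 * a) u2
  rw [Nat.mul_add] at v1 v2
  rw [Nat.mul_add] at v2
  omega

end Pool.Agent.MP_c34dea_an.H6
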