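import Pool.Agent.MP_c34dea_an.H66.Geom

set_option autoImplicit false

open scoped symmDiff Pointwise

namespace Pool.Agent.MP_c34dea_an.H6

open H66

variable {S : Type} {G : SimpleGraph S}

/-- `r` is `k` or crosses `k` -/
def Stc (k r : Hyp G) : Prop := r = k ∨ Cross k r

/-- strongly separated hyperplanes -/
def TB0 (t u : Hyp G) : Prop := t ≠ u ∧ ¬ Cross t u ∧ ∀ r, ¬ (Cross r t ∧ Cross r u)

/-- `(a, b)` is a bridge between the disjoint hyperplanes `t` and `u` -/
structure Br (t u : Hyp G) (a b : W G) : Prop where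
  ha : a ∈ car t
  hb : b ∈ car u
  ne : t ≠ u
  nc : ¬ Cross t u
  left : ∀ k ∈ sep a b, ¬ Stc t k
  right : ∀ k ∈ sep a b, ¬ Stc u k

theorem Stc.refl (k : Hyp G) : Stc k k := Or.inl rfl

theorem Stc.symm {k r : Hyp G} (h : Stc k r) : Stc r k := by
  rcases h with h | h
  · exact Or.inl h.symm
  · exact Or.inr h.symm

theorem stc_smul {k r : Hyp G} (g : W G) : Stc (g • k) (g • r) ↔ Stc k r := by
  unfold Stc
  rw [cross_smul, smul_left_cancel_iff]

theorem Stc.mem_st {k r : Hyp G} (h : Stc k r) : r.1 ∈ st G k.1 := by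
  rcases h with h | h
  · rw [h]; exact mem_st_self _
  · exact mem_st_of_adj h.adj

theorem Stc.exists_pt {k r : Hyp G} (h : Stc k r) : ∃ y, y ∈ car k ∧ y ∈ car r := by
  rcases h with h | h
  · obtain ⟨y, hy⟩ := car_nonempty k
    exact ⟨y, hy, h ▸ hy⟩
  · obtain ⟨y, h1, h2, -⟩ := h
    exact ⟨y, h1, h2⟩

theorem stc_of_sep_car {h k : Hyp G} {a b : W G} (ha : a ∈ car h) (hb : b ∈ car h)
    (hk : k ∈ sep a b) : Stc h k := by
  by_cases e : h = k
  · exact Or.inl e.symm
  · exact Or.inr (cross_of_sep_car ha hb hk e)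

theorem stc_of_mem_st {h k : Hyp G} {y : W G} (h1 : y ∈ car h) (h2 : y ∈ car k)
    (e : k.1 ∈ st G h.1) : Stc h k := by
  rcases e with e | e
  · exact Or.inl (eq_of_mem_car_of_label h2 h1 e)
  · exact Or.inr ⟨y, h1, h2, e⟩

theorem Stc.mem_WH {h k : Hyp G} (c : Stc h k) : k ∈ WH (car h) := by
  obtain ⟨y, h1, h2⟩ := c.exists_pt
  exact ⟨y, h1, _, mul_gen_mem_car h1 c.mem_st, by rw [mem_sep_car_gen h2]; simp⟩

theorem TB0.symm {t u : Hyp G} (h : TB0 t u) : TB0 u t :=
  ⟨h.1.symm, fun c => h.2.1 c.symm, fun r c => h.2.2 r c.symm⟩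

theorem TB0.not_stc {t u : Hyp G} (h : TB0 t u) (k : Hyp G) : ¬ (Stc k t ∧ Stc k u) := by
  rintro ⟨a | a, b | b⟩
  · exact h.1 (a.trans b.symm)
  · exact h.2.1 (a ▸ b)
  · exact h.2.1 (b ▸ a).symm
  · exact h.2.2 k ⟨a, b⟩

theorem tb0_smul {t u : Hyp G} (g : W G) : TB0 (g • t) (g • u) ↔ TB0 t u := by
  have key : ∀ (g : W G) (t u : Hyp G), TB0 t u → TB0 (g • t) (g • u) := by
    intro g t u h
    refine ⟨fun e => h.1 (smul_left_cancel g e), fun c => h.2.1 ((cross_smul g).1 c), ?_⟩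
    rintro r ⟨c1, c2⟩
    refine h.2.2 (g⁻¹ • r) ⟨?_, ?_⟩
    · rw [← cross_smul g]; simpa using c1
    · rw [← cross_smul g]; simpa using c2
  refine ⟨fun h => ?_, key g t u⟩
  simpa using key g⁻¹ _ _ h

/-- a hyperplane crossing both ends of a chain crosses the middle -/
theorem cross_mid {p : W G} {a b c r : Hyp G} (h1 : Lt p a b) (h2 : Lt p b c) (c1 : Stc r a)
    (c2 : Stc r c) : Cross r b := by
  obtain ⟨x, hx, hx'⟩ := c1.exists_pt
  obtain ⟨y, hy, hy'⟩ := c2.exists_pt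
  have e1 := h1.not_mem_of_car hx'
  have e2 := h2.mem_of_car hy'
  have e3 : b ∈ sep x y := by
    rw [mem_sep_trans x p y, sep_comm x p]; tauto
  refine cross_of_sep_car hx hy e3 ?_
  rintro rfl
  rcases c1 with c | c
  · exact h1.ne c
  · exact h1.not_cross c.symm

theorem TB0.of_left {p : W G} {a b c : Hyp G} (h : TB0 a b) (h1 : Lt p a b) (h2 : Lt p b c) :
    TB0 a c :=
  ⟨(h1.trans h2).ne, (h1.trans h2).not_cross,
    fun r hr => h.2.2 r ⟨hr.1, cross_mid h1 h2 (Or.inr hr.1) (Or.inr hr.2)⟩⟩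

theorem TB0.of_right {p : W G} {a b c : Hyp G} (h : TB0 b c) (h1 : Lt p a b) (h2 : Lt p b c) :
    TB0 a c :=
  ⟨(h1.trans h2).ne, (h1.trans h2).not_cross,
    fun r hr => h.2.2 r ⟨cross_mid h1 h2 (Or.inr hr.1) (Or.inr hr.2), hr.2⟩⟩

/-- hyperplanes before the gate of a carrier -/
theorem lt_of_gate {p g : W G} {u k : Hyp G} (hg : ∀ y ∈ car u, g ∈ I p y) (hk : k ∈ sep p g) :
    Lt p k u := by
  refine ⟨?_, fun y hy => ?_⟩
  · rintro rfl
    exact gate_not_WH hg hk (Stc.refl k).mem_WH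
  · obtain ⟨z, hz, hc, -, -⟩ := exists_cross_pt hy
    exact hz (hg z hc hk)

theorem mem_sep_gate_iff {p g : W G} {u k : Hyp G} (hc : g ∈ car u) (hg : ∀ y ∈ car u, g ∈ I p y) :
    k ∈ sep p g ↔ Lt p k u :=
  ⟨lt_of_gate hg, fun h => h.mem_of_car hc⟩

theorem exists_gate_car (p : W G) (u : Hyp G) : ∃ g ∈ car u, ∀ y ∈ car u, g ∈ I p y :=
  exists_gate (car_convex u) (car_nonempty u) p

theorem Br.symm {t u : Hyp G} {a b : W G} (h : Br t u a b) : Br u t b a :=
  ⟨h.hb, h.ha, h.ne.symm, fun c => h.nc c.symm, fun k hk => h.right k (mem_sep_comm.1 hk),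
    fun k hk => h.left k (mem_sep_comm.1 hk)⟩

theorem Br.not_stc {t u : Hyp G} {a b : W G} (h : Br t u a b) : ¬ Stc t u := by
  rintro (e | e)
  · exact h.ne e.symm
  · exact h.nc e

theorem Br.smul {t u : Hyp G} {a b : W G} (h : Br t u a b) (g : W G) :
    Br (g • t) (g • u) (g * a) (g * b) := by
  refine ⟨(smul_mem_car g).2 h.ha, (smul_mem_car g).2 h.hb,
    fun e => h.ne (smul_left_cancel g e), fun c => h.nc ((cross_smul g).1 c), ?_, ?_⟩
  · intro k hk c
    rw [sep_smul, Finset.mem_image] at hk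
    obtain ⟨j, hj, rfl⟩ := hk
    exact h.left j hj ((stc_smul g).1 c)
  · intro k hk c
    rw [sep_smul, Finset.mem_image] at hk
    obtain ⟨j, hj, rfl⟩ := hk
    exact h.right j hj ((stc_smul g).1 c)

/-- the walls of a bridge separate the two carriers -/
theorem Br.subset {t u : Hyp G} {a b x y : W G} (h : Br t u a b) (hx : x ∈ car t)
    (hy : y ∈ car u) : sep a b ⊆ sep x y := by
  intro k hk
  have e1 : k ∉ sep x a := fun c => h.left k hk (stc_of_sep_car hx h.ha c)
  have e2 : k ∉ sep b y := fun c => h.right k hk (stc_of_sep_car h.hb hy c)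
  have e3 := mem_sep_trans (h := k) x a y
  have e4 := mem_sep_trans (h := k) a b y
  tauto

theorem Br.d_le {t u : Hyp G} {a b x y : W G} (h : Br t u a b) (hx : x ∈ car t)
    (hy : y ∈ car u) : d a b ≤ d x y :=
  Finset.card_le_card (h.subset hx hy)

theorem exists_br {t u : Hyp G} (h : ¬ Stc t u) : ∃ a b, Br t u a b := by
  classical
  have hex : ∃ n, ∃ a ∈ car t, ∃ b ∈ car u, d a b = n := by
    obtain ⟨a, ha⟩ := car_nonempty t
    obtain ⟨b, hb⟩ := car_nonempty u
    exact ⟨_, a, ha, b, hb, rfl⟩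
  obtain ⟨a, ha, b, hb, e⟩ := Nat.find_spec hex
  have hmin : ∀ x ∈ car t, ∀ y ∈ car u, d a b ≤ d x y := fun x hx y hy => by
    rw [e]; exact Nat.find_min' hex ⟨x, hx, y, hy, rfl⟩
  have g1 : ∀ y ∈ car u, b ∈ I a y :=
    gate_of_closest (car_convex u) hb fun y hy => hmin a ha y hy
  have g2 : ∀ y ∈ car t, a ∈ I b y :=
    gate_of_closest (car_convex t) ha fun y hy => by
      rw [d_comm b a, d_comm b y]; exact hmin y hy b hb
  refine ⟨a, b, ha, hb, fun e => h (Or.inl e.symm), fun c => h (Or.inr c), ?_, ?_⟩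
  · intro k hk c
    exact gate_not_WH g2 (mem_sep_comm.1 hk) c.mem_WH
  · intro k hk c
    exact gate_not_WH g1 hk c.mem_WH

theorem exists_br_of_lt {p : W G} {t u : Hyp G} (h : Lt p t u) : ∃ a b, Br t u a b :=
  exists_br (by
    rintro (e | e)
    · exact h.ne e.symm
    · exact h.not_cross e)

theorem exists_br_of_tb0 {t u : Hyp G} (h : TB0 t u) : ∃ a b, Br t u a b :=
  exists_br (by
    rintro (e | e)
    · exact h.1 e.symm
    · exact h.2.1 e)

theorem Br.mem_of_lt {p a b : W G} {t u k : Hyp G} (h : Br t u a b) (h1 : Lt p t k)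
    (h2 : Lt p k u) : k ∈ sep a b := by
  have e1 := h1.not_mem_of_car h.ha
  have e2 := h2.mem_of_car h.hb
  rw [mem_sep_trans a p b, sep_comm a p]
  tauto

theorem Br.not_mem_base {p a b : W G} {t u k : Hyp G} (h : Br t u a b) (hl : Lt p t u)
    (hk : k ∈ sep a b) : k ∉ sep p a := by
  intro e
  obtain ⟨y, hy, n1, m1⟩ := exists_mem_car_side p t
  obtain ⟨z, hz, -, m2⟩ := exists_mem_car_side p u
  have hy' : y * gen G t.1 ∈ car t := mul_gen_mem_car hy (mem_st_self _)
  have hz' : z * gen G u.1 ∈ car u := mul_gen_mem_car hz (mem_st_self _)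
  have a1 : ∀ x ∈ car t, k ∈ sep p x := fun x hx => by
    have e1 : k ∉ sep a x := fun c => h.left k hk (stc_of_sep_car h.ha hx c)
    rw [mem_sep_trans p a x]; tauto
  have a2 : k ∉ sep p (z * gen G u.1) := by
    have e1 := h.subset h.ha hz' hk
    rw [mem_sep_trans p a]; tauto
  have hne : t ≠ k := fun c => h.left k hk (Or.inl c.symm)
  rcases trichotomy m1 (a1 _ hy') hne with c | c | c
  · exact n1 (c.mem (a1 y hy))
  · exact a2 (c.mem (hl.mem m2))
  · exact h.left k hk (Or.inr c)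

theorem Br.lt_of_mem {p a b : W G} {t u k : Hyp G} (h : Br t u a b) (hl : Lt p t u)
    (hk : k ∈ sep a b) : Lt p t k ∧ Lt p k u := by
  have n1 := h.not_mem_base hl hk
  obtain ⟨z, hz, -, m2⟩ := exists_mem_car_side p u
  have hz' : z * gen G u.1 ∈ car u := mul_gen_mem_car hz (mem_st_self _)
  have a1 : ∀ x ∈ car u, k ∈ sep p x := fun x hx => by
    have e1 := h.subset h.ha hx hk
    rw [mem_sep_trans p a]; tauto
  constructor
  · rcases trichotomy (hl.mem m2) (a1 _ hz') (fun c => h.left k hk (Or.inl c.symm)) with c | c | c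
    · exact c
    · exact absurd (c.mem_of_car h.ha) n1
    · exact absurd (Or.inr c) (h.left k hk)
  · rcases trichotomy (a1 _ hz') m2 (fun c => h.right k hk (Or.inl c)) with c | c | c
    · exact c
    · exact absurd (a1 b h.hb) (c.not_mem_of_car h.hb)
    · exact absurd (Or.inr c.symm) (h.right k hk)

theorem Br.mem_iff {p a b : W G} {t u k : Hyp G} (h : Br t u a b) (hl : Lt p t u) :
    k ∈ sep a b ↔ Lt p t k ∧ Lt p k u :=
  ⟨h.lt_of_mem hl, fun x => h.mem_of_lt x.1 x.2⟩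

/-- a base point just behind the first wall of a bridge -/
theorem Br.lt_base {a b : W G} {t u : Hyp G} (h : Br t u a b) :
    Lt (a * gen G t.1) t u := by
  have n1 : t ∉ sep a b := fun c => h.left t c (Stc.refl t)
  have n2 : u ∉ sep a b := fun c => h.right u c (Stc.refl u)
  have e1 := mem_sep_car_gen h.ha
  have e2 := mem_sep_car_gen h.hb
  have m1 : t ∈ sep (a * gen G t.1) (b * gen G u.1) := by
    rw [mem_sep_trans _ a, mem_sep_trans a b, sep_comm _ a, e1, e2]
    simp [n1, h.ne]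
  have m2 : u ∈ sep (a * gen G t.1) (b * gen G u.1) := by
    rw [mem_sep_trans _ a, mem_sep_trans a b, sep_comm _ a, e1, e2]
    simp [n2, h.ne.symm]
  rcases trichotomy m1 m2 h.ne with c | c | c
  · exact c
  · have := c.mem_of_car h.ha
    rw [sep_comm, e1, Finset.mem_singleton] at this
    exact absurd this h.ne.symm
  · exact absurd c h.nc

/-- the initial part of a bridge is a bridge -/
theorem Br.initial {a b g : W G} {t u r : Hyp G} (h : Br t u a b) (hr : r ∈ sep a b)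
    (hc : g ∈ car r) (hg : ∀ y ∈ car r, g ∈ I a y) : Br t r a g ∧ g ∈ I a b := by
  obtain ⟨y, hy, hy', -, -⟩ := exists_cross_pt hr
  have hI : g ∈ I a b := mem_I_trans_left hy (hg y hy')
  refine ⟨⟨h.ha, hc, fun e => h.left r hr (Or.inl e.symm), fun c => h.left r hr (Or.inr c),
    fun k hk => h.left k (hI hk), fun k hk c => gate_not_WH hg hk c.mem_WH⟩, hI⟩

/-- carrier points of two walls of an interval, closer than its length -/
theorem exists_car_close {p q : W G} {r r' : Hyp G} (hr : r ∈ sep p q) (hr' : r' ∈ sep p q) :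
    ∃ x ∈ car r, ∃ y ∈ car r', x ∈ I p q ∧ y ∈ I p q ∧ d x y + 1 ≤ d p q := by
  obtain ⟨x, hx, hc, -, hx'⟩ := exists_cross_pt hr
  obtain ⟨y, hy, hd, -, -⟩ := exists_cross_pt hr'
  have key : ∀ z ∈ I p q, r ∉ sep z y → d z y + 1 ≤ d p q := by
    intro z hz hn
    have : sep z y ⊆ sep p q := by
      intro k hk
      rw [mem_sep_trans z p y, sep_comm z p] at hk
      rcases hk with c | c
      · exact hz c.1
      · exact hy c.1
    exact Finset.card_lt_card ⟨this, fun c => hn (c hr)⟩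
  by_cases e : r ∈ sep x y
  · refine ⟨_, mul_gen_mem_car hc (mem_st_self _), y, hd, hx', hy, key _ hx' ?_⟩
    rw [mem_sep_trans _ x, sep_comm _ x, mem_sep_car_gen hc]
    simp [e]
  · exact ⟨x, hc, y, hd, hx, hy, key _ hx e⟩

/-- two intervals with isomorphic labelled orders spell the same element -/
theorem eq_of_match {ρ : Hyp G → Hyp G → Prop} (hl : ∀ k k', ρ k k' → k'.1 = k.1) {b b' : W G}
    (a : W G) : ∀ a' : W G, (∀ k ∈ sep a b, ∃ k' ∈ sep a' b', ρ k k') →
      (∀ k' ∈ sep a' b', ∃ k ∈ sep a b, ρ k k') →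
      (∀ k ∈ sep a b, ∀ j ∈ sep a b, ∀ k' ∈ sep a' b', ∀ j' ∈ sep a' b', ρ k k' → ρ j j' →
        ((k = j ↔ k' = j') ∧ (Lt a' j' k' → Lt a j k))) → a⁻¹ * b = a'⁻¹ * b' := by
  induction a using geod_ind (q := b) with
  | h0 =>
    intro a' _ h2 _
    have : sep a' b' = ∅ := by
      by_contra hne
      obtain ⟨k', hk'⟩ := Finset.nonempty_iff_ne_empty.2 hne
      obtain ⟨k, hk, -⟩ := h2 k' hk'
      simp at hk
    rw [eq_of_sep_empty this]
    simp
  | hs a s hs ih =>
    intro a' h1 h2 h3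
    obtain ⟨k', hk', r0⟩ := h1 _ hs
    have hc : a' ∈ car k' := by
      obtain ⟨g, hg, hg'⟩ := exists_gate_car a' k'
      by_cases e : a' = g
      · exact e ▸ hg
      · obtain ⟨s', hs'⟩ := exists_step e
        have l1 := lt_of_gate hg' hs'
        obtain ⟨j, hj, r1⟩ := h2 _ (l1.mem hk')
        have l2 := (h3 _ hs _ hj _ hk' _ (l1.mem hk') r0 r1).2 l1
        have := l2.mem_of_car (mem_car_hyp a s)
        simp at this
    have e0 : hyp a' s = k' := by
      have : k'.1 = s := hl _ _ r0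
      rw [← this]; exact hc
    have hs' : hyp a' s ∈ sep a' b' := e0 ▸ hk'
    have key := ih (a' * gen G s) ?_ ?_ ?_
    · have : a⁻¹ * b = gen G s * ((a * gen G s)⁻¹ * b) := by
        simp [← mul_assoc, gen_mul_self]
      rw [this, key]
      simp [← mul_assoc, gen_mul_self]
    · intro k hk
      rw [sep_step hs, Finset.mem_erase] at hk
      obtain ⟨j', hj', r1⟩ := h1 k hk.2
      refine ⟨j', ?_, r1⟩
      rw [sep_step hs', Finset.mem_erase, e0]
      exact ⟨fun e => hk.1 ((h3 _ hk.2 _ hs _ hj' _ hk' r1 r0).1.2 e), hj'⟩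
    · intro j' hj'
      rw [sep_step hs', Finset.mem_erase, e0] at hj'
      obtain ⟨k, hk, r1⟩ := h2 j' hj'.2
      refine ⟨k, ?_, r1⟩
      rw [sep_step hs, Finset.mem_erase]
      exact ⟨fun e => hj'.1 ((h3 _ hk _ hs _ hj'.2 _ hk' r1 r0).1.1 e), hk⟩
    · intro k hk j hj k1 hk1 j1 hj1 r1 r2
      rw [sep_step hs, Finset.mem_erase] at hk hj
      rw [sep_step hs', Finset.mem_erase] at hk1 hj1
      have := h3 _ hk.2 _ hj.2 _ hk1.2 _ hj1.2 r1 r2
      refine ⟨this.1, fun l => ?_⟩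
      have l1 : Lt a' j1 k1 := l.base (by rw [sep_comm, sep_gen]; simpa using hj1.1)
        (by rw [sep_comm, sep_gen]; simpa using hk1.1)
      exact (this.2 l1).base (by rw [sep_gen]; simpa using hj.1) (by rw [sep_gen]; simpa using hk.1)

end Pool.Agent.MP_c34dea_an.H6
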